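import Pool.Agent.N839.VS.Sym

/-!
# VS/A8, part 6: the potential for `φ = i η`
-/

set_option autoImplicit false

namespace Pool.Agent.N839.VS

open Filter Finset Topology Metric MeasureTheory
open Pool.Agent.W711.HT Pool.Agent.N561
open scoped Real ComplexConjugate

/-- primitive on a star-shaped domain -/
theorem prim {f : ℂ → ℂ} {U : Set ℂ} (hU : IsOpen U)
    (hst : ∀ w ∈ U, ∀ t ∈ Set.Icc (0:ℝ) 1, (t : ℂ) * w ∈ U) (hf : DifferentiableOn ℂ f U)
    {w : ℂ} (hw : w ∈ U) :
    HasDerivAt (fun w : ℂ => w * ∫ t in (0:ℝ)..1, f (t * w)) (f w) w := by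
  obtain ⟨ε, hε, hball⟩ := Metric.nhds_basis_closedBall.mem_iff.1 (hU.mem_nhds hw)
  have hf' : DifferentiableOn ℂ (deriv f) U := hf.deriv hU
  have hfc := hf.continuousOn
  have hfc' := hf'.continuousOn
  set K : Set (ℝ × ℂ) := Set.Icc (0:ℝ) 1 ×ˢ closedBall w ε with hK
  have hKc : IsCompact K := isCompact_Icc.prod (isCompact_closedBall _ _)
  have hKU : ∀ p ∈ K, (p.1 : ℂ) * p.2 ∈ U := fun p hp => hst p.2 (hball hp.2) p.1 hp.1
  have hm : Continuous (fun p : ℝ × ℂ => (p.1 : ℂ) * p.2) :=
    (Complex.continuous_ofReal.comp continuous_fst).mul continuous_snd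
  have hcb : ContinuousOn (fun p : ℝ × ℂ => (p.1 : ℂ) * deriv f ((p.1 : ℂ) * p.2)) K :=
    (Complex.continuous_ofReal.comp continuous_fst).continuousOn.mul
      (hfc'.comp hm.continuousOn hKU)
  obtain ⟨M, hM⟩ := hKc.exists_bound_of_continuousOn hcb
  have hint1 : ∀ x ∈ closedBall w ε, ContinuousOn (fun t : ℝ => f (t * x)) (Set.Icc 0 1) := by
    intro x hx
    exact hfc.comp (Complex.continuous_ofReal.mul continuous_const).continuousOn
      fun t ht => hst x (hball hx) t ht
  have hint2 : ContinuousOn (fun t : ℝ => (t : ℂ) * deriv f (t * w)) (Set.Icc 0 1) :=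
    Complex.continuous_ofReal.continuousOn.mul
      (hfc'.comp (Complex.continuous_ofReal.mul continuous_const).continuousOn
        fun t ht => hst w hw t ht)
  have hI : Set.uIoc (0:ℝ) 1 ⊆ Set.Icc 0 1 := by
    rw [Set.uIoc_of_le zero_le_one]
    exact Set.Ioc_subset_Icc_self
  have key := intervalIntegral.hasDerivAt_integral_of_dominated_loc_of_deriv_le
    (μ := volume) (a := 0) (b := 1) (F := fun (x : ℂ) (t : ℝ) => f (t * x))
    (F' := fun (x : ℂ) (t : ℝ) => (t : ℂ) * deriv f (t * x)) (x₀ := w)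
    (s := closedBall w ε) (bound := fun _ => M) (closedBall_mem_nhds w hε)
    (by
      filter_upwards [closedBall_mem_nhds w hε] with x hx
      exact ((hint1 x hx).mono hI).aestronglyMeasurable measurableSet_uIoc)
    (by
      refine ContinuousOn.intervalIntegrable ?_
      rw [Set.uIcc_of_le zero_le_one]
      exact hint1 w (mem_closedBall_self hε.le))
    ((hint2.mono hI).aestronglyMeasurable measurableSet_uIoc)
    (Filter.Eventually.of_forall fun t ht x hx => hM (t, x) ⟨hI ht, hx⟩)
    (by simp)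
    (Filter.Eventually.of_forall fun t ht x hx => by
      have h1 : HasDerivAt f (deriv f (t * x)) (t * x) :=
        (hf.differentiableAt (hU.mem_nhds (hst x (hball hx) t (hI ht)))).hasDerivAt
      have h2 : HasDerivAt (fun x : ℂ => (t : ℂ) * x) (t : ℂ) x := by
        simpa using (hasDerivAt_id x).const_mul (t : ℂ)
      exact (h1.comp x h2).congr_deriv (by ring))
  obtain ⟨hi2, hd⟩ := key
  have hprod := (hasDerivAt_id w).mul hd
  refine hprod.congr_deriv ?_
  have hd3 : ∀ t ∈ Set.uIcc (0:ℝ) 1, HasDerivAt (fun t : ℝ => (t : ℂ) * f (t * w))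
      (f (t * w) + w * ((t : ℂ) * deriv f (t * w))) t := by
    intro t ht
    rw [Set.uIcc_of_le zero_le_one] at ht
    have h1 : HasDerivAt f (deriv f (t * w)) (t * w) :=
      (hf.differentiableAt (hU.mem_nhds (hst w hw t ht))).hasDerivAt
    have h2 : HasDerivAt (fun t : ℝ => (t : ℂ) * w) w t := by
      simpa using (Complex.ofRealCLM.hasDerivAt (x := t)).mul_const w
    have h3 : HasDerivAt (fun t : ℝ => f ((t : ℂ) * w)) (deriv f (t * w) * w) t :=
      HasDerivAt.comp t (h₂ := f) (h := fun t : ℝ => (t : ℂ) * w) h1 h2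
    have h4 : HasDerivAt (fun t : ℝ => (t : ℂ)) 1 t := Complex.ofRealCLM.hasDerivAt (x := t)
    exact (h4.mul h3).congr_deriv (by ring)
  have hi1 : IntervalIntegrable (fun t : ℝ => f (t * w)) volume 0 1 := by
    refine ContinuousOn.intervalIntegrable ?_
    rw [Set.uIcc_of_le zero_le_one]
    exact hint1 w (mem_closedBall_self hε.le)
  have hftc := intervalIntegral.integral_eq_sub_of_hasDerivAt hd3
    (hi1.add (hi2.const_mul w))
  rw [intervalIntegral.integral_add hi1 (hi2.const_mul w),
    intervalIntegral.integral_const_mul] at hftc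
  simp only [Complex.ofReal_one, one_mul, Complex.ofReal_zero, zero_mul, sub_zero] at hftc
  simpa using hftc

theorem log2cos_diff : DifferentiableOn ℂ (fun w => Complex.log (2 * Complex.cos w))
    {w : ℂ | |w.re| < π / 2} := by
  intro w hw
  have h1 : 2 * Complex.cos w ∈ Complex.slitPlane :=
    two_mul_slit (cos_slit (lt_trans hw (by linarith [Real.pi_pos])) (Or.inr hw))
  have h2 : DifferentiableAt ℂ (fun w => 2 * Complex.cos w) w := by fun_prop
  exact (h2.clog h1).differentiableWithinAt

theorem LL_deriv {w : ℂ} (hw : |w.re| < π / 2) :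
    HasDerivAt LL (Complex.log (2 * Complex.cos w)) w := by
  refine prim (f := fun w => Complex.log (2 * Complex.cos w))
    (U := {w : ℂ | |w.re| < π / 2})
    (isOpen_lt Complex.continuous_re.abs continuous_const) ?_ log2cos_diff hw
  intro w hw t ht
  show |((t : ℂ) * w).re| < π / 2
  rw [Complex.re_ofReal_mul, abs_mul, abs_of_nonneg ht.1]
  exact (mul_le_of_le_one_left (abs_nonneg _) ht.2).trans_lt hw

/-- `LS` on the real axis -/
theorem LS_real {x : ℝ} (hx0 : 0 < x) (hx1 : x < π) :
    LS x = ((∫ s in (0:ℝ)..x, Real.log (2 * Real.sin s) : ℝ) : ℂ) := by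
  unfold LS
  have h1 : ∫ t in (0:ℝ)..1, Complex.log (2 * Complex.sin (t * x)) =
      ((∫ t in (0:ℝ)..1, Real.log (2 * Real.sin (t * x)) : ℝ) : ℂ) := by
    rw [← intervalIntegral.integral_ofReal]
    refine intervalIntegral.integral_congr_ae (Filter.Eventually.of_forall fun t ht => ?_)
    rw [Set.uIoc_of_le zero_le_one] at ht
    have h2 : 0 < Real.sin (t * x) :=
      Real.sin_pos_of_pos_of_lt_pi (mul_pos ht.1 hx0)
        ((mul_le_of_le_one_left hx0.le ht.2).trans_lt hx1)
    rw [Complex.ofReal_log (by positivity)]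
    push_cast
    rfl
  rw [h1, ← Complex.ofReal_mul]
  congr 1
  have h3 := intervalIntegral.integral_comp_mul_right (a := 0) (b := 1)
    (fun s => Real.log (2 * Real.sin s)) hx0.ne'
  rw [h3, zero_mul, one_mul, smul_eq_mul, ← mul_assoc, mul_inv_cancel₀ hx0.ne', one_mul]

theorem int_log2sin (a b : ℝ) :
    IntervalIntegrable (fun s => Real.log (2 * Real.sin s)) volume a b := by
  have h1 : IntervalIntegrable (fun s => Real.log 2 + Real.log (Real.sin s)) volume a b :=
    intervalIntegrable_const.add intervalIntegrable_log_sin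
  refine h1.congr_ae ?_
  have h2 : ∀ᵐ s : ℝ, Real.sin s ≠ 0 := by
    have h3 : (Real.sin ⁻¹' {0}).Countable := by
      have : Real.sin ⁻¹' {0} = Set.range (fun n : ℤ => (n : ℝ) * π) := by
        ext s
        simp only [Set.mem_preimage, Set.mem_singleton_iff, Set.mem_range]
        exact Real.sin_eq_zero_iff
      rw [this]
      exact Set.countable_range _
    have h4 := h3.measure_zero volume
    rw [← compl_mem_ae_iff] at h4
    filter_upwards [h4] with s hs
    exact hs
  refine ae_restrict_of_ae ?_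
  filter_upwards [h2] with s hs
  rw [Real.log_mul two_ne_zero hs]

theorem LS_deriv {x : ℝ} (hx0 : 0 < x) (hx1 : x < π) :
    HasDerivAt (fun x : ℝ => (LS x).re) (Real.log (2 * Real.sin x)) x := by
  have h1 : HasDerivAt (fun x : ℝ => ∫ s in (0:ℝ)..x, Real.log (2 * Real.sin s))
      (Real.log (2 * Real.sin x)) x := by
    have h2 := Real.sin_pos_of_pos_of_lt_pi hx0 hx1
    have hcont : ContinuousAt (fun s => Real.log (2 * Real.sin s)) x :=
      ContinuousAt.log (by fun_prop) (by positivity)
    refine intervalIntegral.integral_hasDerivAt_right (int_log2sin 0 x) ?_ hcont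
    exact ((Real.measurable_log.comp (by fun_prop)).stronglyMeasurable).stronglyMeasurableAtFilter
  refine h1.congr_of_eventuallyEq ?_
  filter_upwards [(isOpen_Ioo (a := 0) (b := π)).mem_nhds ⟨hx0, hx1⟩] with y hy
  rw [LS_real hy.1 hy.2, Complex.ofReal_re]

end Pool.Agent.N839.VS
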