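import Pool.Agent.N839.VS.Win
import Pool.Agent.N839.VS.Axis

/-!
# VS/A8, part 7: the window for `φ = i η`
-/

set_option autoImplicit false

namespace Pool.Agent.N839.VS

open Filter Finset Topology Metric MeasureTheory
open Pool.Agent.W711.HT Pool.Agent.N561
open scoped Real ComplexConjugate

/-! ### the derivative on the real axis -/

/-- the derivative of the potential -/
noncomputable def Du (φ : ℂ) (x : ℝ) : ℝ :=
  2 * Real.log ‖2 * Complex.cos (π * x)‖ +
    (Real.log ‖2 * Complex.cos (π * x + φ / 2)‖ + Real.log ‖2 * Complex.cos (π * x - φ / 2)‖) -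
    4 * Real.log (2 * Real.sin (π * x))

theorem RR_deriv {φ δ : ℂ} (h1 : |(π * δ + φ / 2).re| < π / 2)
    (h2 : |(π * δ - φ / 2).re| < π / 2) :
    HasDerivAt (fun δ => RR δ φ) (Complex.log (2 * Complex.cos (π * δ + φ / 2)) +
      Complex.log (2 * Complex.cos (π * δ - φ / 2))) δ := by
  unfold RR
  have l1 : HasDerivAt (fun z : ℂ => (π : ℂ) * z + φ / 2) (π : ℂ) δ := by
    simpa using ((hasDerivAt_id δ).const_mul (π : ℂ)).add_const (φ / 2)
  have l2 : HasDerivAt (fun z : ℂ => (π : ℂ) * z - φ / 2) (π : ℂ) δ := by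
    simpa using ((hasDerivAt_id δ).const_mul (π : ℂ)).sub_const (φ / 2)
  have e1 := (LL_deriv h1).comp δ l1
  have e2 := (LL_deriv h2).comp δ l2
  have e3 := (e1.add e2).div_const (π : ℂ)
  refine e3.congr_deriv ?_
  have : (π : ℂ) ≠ 0 := by exact_mod_cast Real.pi_ne_zero
  field_simp

theorem u_deriv {φ : ℂ} (hφ : φ.re = 0) {x : ℝ} (hx0 : 0 < x) (hx1 : x < 1 / 2) :
    HasDerivAt (fun x : ℝ => (TH 0 φ x).re) (Du φ x) x := by
  have hπ := Real.pi_pos
  have hπx : |π * x| < π / 2 := by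
    rw [abs_of_pos (by positivity)]
    nlinarith
  have e0 : ((π : ℂ) * (x : ℂ)).re = π * x := by rw [pi_mul_re, Complex.ofReal_re]
  have h0 : (φ / 2).re = 0 := by rw [half_re, hφ]; norm_num
  have r1 := (RR_deriv (φ := 0) (δ := x) (by simpa [e0] using hπx) (by simpa [e0] using hπx))
  have r2 := (RR_deriv (φ := φ) (δ := x) (by rw [Complex.add_re, e0, h0, add_zero]; exact hπx)
    (by rw [Complex.sub_re, e0, h0, sub_zero]; exact hπx))
  have s1 := r1.real_of_complex
  have s2 := r2.real_of_complex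
  have l1 : HasDerivAt (fun z : ℝ => π * z) π x := by
    simpa using (hasDerivAt_id x).const_mul π
  have s3 : HasDerivAt (fun z : ℝ => (LS ((π * z : ℝ) : ℂ)).re)
      (Real.log (2 * Real.sin (π * x)) * π) x :=
    HasDerivAt.comp x (h₂ := fun x : ℝ => (LS x).re)
      (LS_deriv (by positivity) (by nlinarith)) l1
  have s4 := ((s1.add s2).sub ((s3.div_const π).const_mul 4))
  refine (s4.congr_of_eventuallyEq ?_).congr_deriv ?_
  · refine Filter.Eventually.of_forall fun z => ?_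
    simp only [TH, Complex.sub_re, Complex.add_re, Pi.add_apply, Pi.sub_apply]
    congr 1
    rw [show (4 : ℂ) = ((4 : ℝ) : ℂ) by norm_num, Complex.re_ofReal_mul,
      show LS (π * (z : ℂ)) / (π : ℂ) = ((π⁻¹ : ℝ) : ℂ) * LS (π * (z : ℂ)) by
        push_cast; field_simp, Complex.re_ofReal_mul]
    push_cast
    ring
  · unfold Du
    rw [Complex.add_re, Complex.add_re, Complex.log_re, Complex.log_re, Complex.log_re,
      Complex.log_re, zero_div, add_zero, sub_zero]
    field_simp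
    ring

theorem norm_cos_sq (z : ℂ) : ‖Complex.cos z‖ ^ 2 = Real.cos z.re ^ 2 + Real.sinh z.im ^ 2 := by
  rw [← Complex.normSq_eq_norm_sq, Complex.normSq_apply, cos_re, cos_im]
  have h1 := Real.cosh_sq z.im
  have h2 := Real.sin_sq_add_cos_sq z.re
  have h3 : Real.sin z.re ^ 2 = 1 - Real.cos z.re ^ 2 := by linarith
  calc Real.cos z.re * Real.cosh z.im * (Real.cos z.re * Real.cosh z.im) +
        -(Real.sin z.re * Real.sinh z.im) * -(Real.sin z.re * Real.sinh z.im) =
        Real.cos z.re ^ 2 * Real.cosh z.im ^ 2 + Real.sin z.re ^ 2 * Real.sinh z.im ^ 2 := by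
        ring
    _ = _ := by rw [h1, h3]; ring

theorem norm_cos_anti {z w : ℂ} (him : z.im = w.im) (h0 : 0 ≤ z.re) (hzw : z.re ≤ w.re)
    (hw : w.re < π / 2) : ‖Complex.cos w‖ ≤ ‖Complex.cos z‖ := by
  have h1 : Real.cos w.re ≤ Real.cos z.re :=
    Real.cos_le_cos_of_nonneg_of_le_pi h0 (by linarith [Real.pi_pos]) hzw
  have h2 : 0 ≤ Real.cos w.re :=
    Real.cos_nonneg_of_neg_pi_div_two_le_of_le (by linarith [Real.pi_pos]) hw.le
  have h3 : ‖Complex.cos w‖ ^ 2 ≤ ‖Complex.cos z‖ ^ 2 := by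
    rw [norm_cos_sq, norm_cos_sq, him]
    gcongr
  exact le_of_sq_le_sq h3 (norm_nonneg _)

theorem Du_anti {φ : ℂ} (hφ : φ.re = 0) {x y : ℝ} (hx0 : 0 < x) (hxy : x < y)
    (hy : y < 1 / 2) : Du φ y < Du φ x := by
  have hπ := Real.pi_pos
  have hπy : π * y < π / 2 := by nlinarith
  have hπxy : π * x < π * y := by gcongr
  have hπx : 0 < π * x := by positivity
  have h0 : (φ / 2).re = 0 := by rw [half_re, hφ]; norm_num
  have e0 : ∀ t : ℝ, ((π : ℂ) * (t : ℂ)).re = π * t := fun t => by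
    rw [pi_mul_re, Complex.ofReal_re]
  have i0 : ∀ t : ℝ, ((π : ℂ) * (t : ℂ)).im = 0 := fun t => by
    rw [pi_mul_im, Complex.ofReal_im, mul_zero]
  have hcos : ∀ w : ℂ, 0 < w.re → w.re < π / 2 → 0 < ‖2 * Complex.cos w‖ := by
    intro w h1 h2
    rw [norm_pos_iff]
    exact Complex.slitPlane_ne_zero (two_mul_slit (cos_slit (abs_lt.2 ⟨by linarith, by linarith⟩)
      (Or.inr (abs_lt.2 ⟨by linarith, h2⟩))))
  have hlog : ∀ z w : ℂ, z.im = w.im → 0 < z.re → z.re ≤ w.re → w.re < π / 2 →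
      Real.log ‖2 * Complex.cos w‖ ≤ Real.log ‖2 * Complex.cos z‖ := by
    intro z w h1 h2 h3 h4
    refine Real.log_le_log (hcos w (by linarith) h4) ?_
    rw [norm_mul, norm_mul]
    have := norm_cos_anti h1 h2.le h3 h4
    gcongr
  have a1 := hlog (π * x) (π * y) (by rw [i0, i0]) (by rw [e0]; exact hπx)
    (by rw [e0, e0]; exact hπxy.le) (by rw [e0]; exact hπy)
  have a2 := hlog (π * x + φ / 2) (π * y + φ / 2)
    (by rw [Complex.add_im, Complex.add_im, i0, i0])
    (by rw [Complex.add_re, e0, h0, add_zero]; exact hπx)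
    (by rw [Complex.add_re, Complex.add_re, e0, e0]; linarith)
    (by rw [Complex.add_re, e0, h0, add_zero]; exact hπy)
  have a3 := hlog (π * x - φ / 2) (π * y - φ / 2)
    (by rw [Complex.sub_im, Complex.sub_im, i0, i0])
    (by rw [Complex.sub_re, e0, h0, sub_zero]; exact hπx)
    (by rw [Complex.sub_re, Complex.sub_re, e0, e0]; linarith)
    (by rw [Complex.sub_re, e0, h0, sub_zero]; exact hπy)
  have a4 : Real.log (2 * Real.sin (π * x)) < Real.log (2 * Real.sin (π * y)) := by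
    have h1 : 0 < Real.sin (π * x) := Real.sin_pos_of_pos_of_lt_pi hπx (by linarith)
    have h2 : Real.sin (π * x) < Real.sin (π * y) :=
      Real.sin_lt_sin_of_lt_of_le_pi_div_two (by linarith) hπy.le hπxy
    exact Real.log_lt_log (by positivity) (by linarith)
  unfold Du
  linarith

/-- the strict maximum on the real axis -/
theorem u_max {φ : ℂ} (hφ : φ.re = 0) {x₀ : ℝ} (h0 : 0 < x₀) (h1 : x₀ < 1 / 2)
    (hd : Du φ x₀ = 0) {x : ℝ} (hx0 : 0 < x) (hx1 : x < 1 / 2) (hne : x ≠ x₀) :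
    (TH 0 φ x).re < (TH 0 φ x₀).re := by
  have hder : ∀ y : ℝ, 0 < y → y < 1 / 2 → HasDerivAt (fun x : ℝ => (TH 0 φ x).re) (Du φ y) y :=
    fun y h1 h2 => u_deriv hφ h1 h2
  rcases lt_or_gt_of_ne hne with h | h
  · obtain ⟨c, hc, hc2⟩ := exists_hasDerivAt_eq_slope (fun x : ℝ => (TH 0 φ x).re) (Du φ) h
      (fun y hy => (hder y (by linarith [hy.1]) (by linarith [hy.2])).continuousAt.continuousWithinAt)
      (fun y hy => hder y (by linarith [hy.1]) (by linarith [hy.2]))
    have h2 := Du_anti hφ (x := c) (y := x₀) (by linarith [hc.1]) hc.2 h1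
    rw [hd, hc2] at h2
    have h3 : 0 < x₀ - x := by linarith
    have h4 := (div_pos_iff_of_pos_right h3).1 h2
    linarith
  · obtain ⟨c, hc, hc2⟩ := exists_hasDerivAt_eq_slope (fun x : ℝ => (TH 0 φ x).re) (Du φ) h
      (fun y hy => (hder y (by linarith [hy.1]) (by linarith [hy.2])).continuousAt.continuousWithinAt)
      (fun y hy => hder y (by linarith [hy.1]) (by linarith [hy.2]))
    have h2 := Du_anti hφ (x := x₀) (y := c) h0 hc.1 (by linarith [hc.2])
    rw [hd, hc2] at h2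
    have h3 : 0 < x - x₀ := by linarith
    have h4 : ((TH 0 φ x).re - (TH 0 φ x₀).re) < 0 := by
      by_contra hcon
      have := div_nonneg (not_lt.1 hcon) h3.le
      linarith
    linarith

/-! ### vertical segments -/

theorem vert {f : ℂ → ℂ} {a a' b b' h : ℝ} (haa : a' < a) (hbb : b < b') (hh : 0 < h)
    (hf : DifferentiableOn ℂ f (OR a' b' h))
    (hreal : ∀ x : ℝ, a' < x → x < b' → (f x).im = 0) :
    ∃ h₀ : ℝ, 0 < h₀ ∧ h₀ < h ∧ ∀ x y : ℝ, a ≤ x → x ≤ b → |y| ≤ h₀ →
      (f (x + y * Complex.I)).re ≤ (f x).re + π * |y| := by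
  have hπ := Real.pi_pos
  have hO := isOpen_OR a' b' h
  have hfd : ∀ z ∈ OR a' b' h, HasDerivAt f (deriv f z) z := fun z hz =>
    (hf.differentiableAt (hO.mem_nhds hz)).hasDerivAt
  have hg : ContinuousOn (deriv f) (OR a' b' h) := (hf.deriv hO).continuousOn
  have hmem : ∀ x : ℝ, a' < x → x < b' → (x : ℂ) ∈ OR a' b' h := by
    intro x h1 h2
    refine ⟨?_, ?_, ?_⟩
    · simpa using h1
    · simpa using h2
    · simpa using hh
  have him : ∀ x : ℝ, a' < x → x < b' → (deriv f x).im = 0 := by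
    intro x h1 h2
    have e1 := (hfd x (hmem x h1 h2)).comp_ofReal
    have e2 : HasDerivAt (fun y : ℝ => (f y).im) (deriv f x).im x :=
      (Complex.imCLM.hasFDerivAt.comp_hasDerivAt x e1)
    have e3 : HasDerivAt (fun y : ℝ => (f y).im) 0 x := by
      refine (hasDerivAt_const x (0 : ℝ)).congr_of_eventuallyEq ?_
      filter_upwards [(isOpen_Ioo (a := a') (b := b')).mem_nhds ⟨h1, h2⟩] with y hy
      exact hreal y hy.1 hy.2
    exact e2.unique e3
  have hev : ∀ᶠ y : ℝ in 𝓝 (0 : ℝ), ∀ x ∈ Set.Icc a b,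
      (x : ℂ) + (y : ℂ) * Complex.I ∈ OR a' b' h ∧
      |(deriv f (x + (y : ℂ) * Complex.I)).im| < π := by
    refine isCompact_Icc.eventually_forall_of_forall_eventually fun x hx => ?_
    have hm : Continuous (fun z : ℝ × ℝ => (z.2 : ℂ) + z.1 * Complex.I) := by fun_prop
    have hx' : ((x : ℂ) + ((0 : ℝ) : ℂ) * Complex.I) = x := by simp
    have hxm : (fun z : ℝ × ℝ => (z.2 : ℂ) + z.1 * Complex.I) (0, x) ∈ OR a' b' h := by
      simp only [hx']
      exact hmem x (by linarith [hx.1]) (by linarith [hx.2])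
    have e1 : ∀ᶠ z : ℝ × ℝ in 𝓝 (0, x), (z.2 : ℂ) + z.1 * Complex.I ∈ OR a' b' h :=
      hm.continuousAt.eventually_mem (hO.mem_nhds hxm)
    have e2 : ContinuousAt (fun z : ℝ × ℝ => |(deriv f ((z.2 : ℂ) + z.1 * Complex.I)).im|)
        (0, x) := by
      have e3 : ContinuousAt (deriv f) ((fun z : ℝ × ℝ => (z.2 : ℂ) + z.1 * Complex.I) (0, x)) :=
        hg.continuousAt (hO.mem_nhds hxm)
      have e5 : ContinuousAt (fun z : ℝ × ℝ => deriv f ((z.2 : ℂ) + z.1 * Complex.I)) (0, x) :=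
        ContinuousAt.comp' (g := deriv f)
          (f := fun z : ℝ × ℝ => (z.2 : ℂ) + z.1 * Complex.I) e3 hm.continuousAt
      exact (Complex.continuous_im.continuousAt.comp e5).abs
    have e4 := e2.eventually_lt_const (show |(deriv f ((x : ℂ) + ((0 : ℝ) : ℂ) *
      Complex.I)).im| < π by
        rw [hx', him x (by linarith [hx.1]) (by linarith [hx.2]), abs_zero]; exact hπ)
    exact e1.and e4
  obtain ⟨ε, hε, hb⟩ := Metric.eventually_nhds_iff.1 hev
  refine ⟨min (ε / 2) (h / 2), by positivity, ?_, ?_⟩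
  · exact (min_le_right _ _).trans_lt (by linarith)
  intro x y hx1 hx2 hy
  have hy' : |y| ≤ ε / 2 := hy.trans (min_le_left _ _)
  have hb' : ∀ t ∈ Set.Icc (-|y|) |y|, (x : ℂ) + t * Complex.I ∈ OR a' b' h ∧
      |(deriv f (x + t * Complex.I)).im| < π := by
    intro t ht
    refine hb ?_ x ⟨hx1, hx2⟩
    rw [dist_zero_right, Real.norm_eq_abs]
    have := abs_le.2 ht
    linarith
  have hder : ∀ t ∈ Set.Icc (-|y|) |y|, HasDerivWithinAt
      (fun t : ℝ => (f (x + t * Complex.I)).re) (-(deriv f (x + t * Complex.I)).im)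
      (Set.Icc (-|y|) |y|) t := by
    intro t ht
    have e1 := hfd _ (hb' t ht).1
    have e2 : HasDerivAt (fun t : ℝ => (x : ℂ) + t * Complex.I) Complex.I t := by
      have := ((Complex.ofRealCLM.hasDerivAt (x := t)).mul_const Complex.I).const_add (x : ℂ)
      simpa using this
    have e3 : HasDerivAt (fun t : ℝ => f (x + t * Complex.I))
        (deriv f (x + t * Complex.I) * Complex.I) t :=
      HasDerivAt.comp t (h₂ := f) (h := fun t : ℝ => (x : ℂ) + t * Complex.I) e1 e2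
    have e4 : HasDerivAt (fun t : ℝ => (f (x + t * Complex.I)).re)
        (deriv f (x + t * Complex.I) * Complex.I).re t :=
      (Complex.reCLM.hasFDerivAt.comp_hasDerivAt t e3)
    refine (e4.congr_deriv ?_).hasDerivWithinAt
    simp
  have h1 := (convex_Icc (-|y|) |y|).norm_image_sub_le_of_norm_hasDerivWithin_le hder
    (C := π) (fun t ht => by
      rw [norm_neg, Real.norm_eq_abs]; exact (hb' t ht).2.le)
    (x := 0) (y := y) ⟨by simp, by simp⟩ (by
      constructor
      · exact neg_abs_le y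
      · exact le_abs_self y)
  simp only [Complex.ofReal_zero, zero_mul, add_zero, sub_zero, Real.norm_eq_abs] at h1
  have h2 := (le_abs_self _).trans h1
  linarith

end Pool.Agent.N839.VS
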