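import Pool.Agent.N839.VS.Base

/-!
# VS/A8, part 4: the reflection in the imaginary axis
-/

set_option autoImplicit false

namespace Pool.Agent.N839.VS

open Filter Finset Topology Metric
open Pool.Agent.W711.HT Pool.Agent.N561
open scoped Real ComplexConjugate

theorem conj2 : conj (2 : ℂ) = 2 := Complex.conj_ofNat 2

theorem conj4 : conj (4 : ℂ) = 4 := Complex.conj_ofNat 4

theorem conj_half (z : ℂ) : conj z / 2 = conj (z / 2) := by rw [map_div₀, conj2]

theorem cos_re (z : ℂ) : (Complex.cos z).re = Real.cos z.re * Real.cosh z.im := by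
  rw [Complex.cos_eq, ← Complex.ofReal_cos, ← Complex.ofReal_cosh, ← Complex.ofReal_sin,
    ← Complex.ofReal_sinh]
  simp only [Complex.sub_re, Complex.mul_re, Complex.mul_im, Complex.ofReal_re,
    Complex.ofReal_im, Complex.I_re, Complex.I_im]
  ring

theorem cos_im (z : ℂ) : (Complex.cos z).im = -(Real.sin z.re * Real.sinh z.im) := by
  rw [Complex.cos_eq, ← Complex.ofReal_cos, ← Complex.ofReal_cosh, ← Complex.ofReal_sin,
    ← Complex.ofReal_sinh]
  simp only [Complex.sub_im, Complex.mul_re, Complex.mul_im, Complex.ofReal_re,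
    Complex.ofReal_im, Complex.I_re, Complex.I_im]
  ring

theorem sin_re (z : ℂ) : (Complex.sin z).re = Real.sin z.re * Real.cosh z.im := by
  rw [Complex.sin_eq, ← Complex.ofReal_cos, ← Complex.ofReal_cosh, ← Complex.ofReal_sin,
    ← Complex.ofReal_sinh]
  simp only [Complex.add_re, Complex.mul_re, Complex.mul_im, Complex.ofReal_re,
    Complex.ofReal_im, Complex.I_re, Complex.I_im]
  ring

theorem two_mul_slit {z : ℂ} (h : z ∈ Complex.slitPlane) : 2 * z ∈ Complex.slitPlane := by
  rw [Complex.mem_slitPlane_iff] at h ⊢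
  rcases h with h | h
  · left
    simpa using h
  · right
    simpa using h

theorem cos_slit {w : ℂ} (h1 : |w.re| < π) (h2 : w.im ≠ 0 ∨ |w.re| < π / 2) :
    Complex.cos w ∈ Complex.slitPlane := by
  have hhalf : |w.re| < π / 2 → Complex.cos w ∈ Complex.slitPlane := fun h => by
    rw [Complex.mem_slitPlane_iff]
    left
    rw [cos_re]
    have := Real.cos_pos_of_mem_Ioo ⟨(abs_lt.1 h).1, (abs_lt.1 h).2⟩
    have := Real.cosh_pos w.im
    positivity
  rcases h2 with h2 | h2
  · by_cases h3 : w.re = 0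
    · exact hhalf (by rw [h3, abs_zero]; have := Real.pi_pos; linarith)
    · rw [Complex.mem_slitPlane_iff]
      right
      rw [cos_im, neg_ne_zero]
      refine mul_ne_zero ?_ ?_
      · intro h4
        rw [Real.sin_eq_zero_iff_of_lt_of_lt (abs_lt.1 h1).1 (abs_lt.1 h1).2] at h4
        exact h3 h4
      · rwa [Ne, Real.sinh_eq_zero]
  · exact hhalf h2

theorem sin_slit {w : ℂ} (h1 : 0 < w.re) (h2 : w.re < π) :
    Complex.sin w ∈ Complex.slitPlane := by
  rw [Complex.mem_slitPlane_iff]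
  left
  rw [sin_re]
  have := Real.sin_pos_of_pos_of_lt_pi h1 h2
  have := Real.cosh_pos w.im
  positivity

theorem slit_arg {z : ℂ} (h : z ∈ Complex.slitPlane) : z.arg ≠ π :=
  (Complex.mem_slitPlane_iff_arg.1 h).1

theorem interval_conj (f : ℝ → ℂ) (a b : ℝ) : ∫ t in a..b, conj (f t) = conj (∫ t in a..b, f t) := by
  rw [intervalIntegral, intervalIntegral, integral_conj, integral_conj, map_sub]

theorem LL_conj {w : ℂ} (h1 : |w.re| < π) (h2 : w.im ≠ 0 ∨ |w.re| < π / 2) :
    LL (conj w) = conj (LL w) := by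
  unfold LL
  rw [map_mul, ← interval_conj]
  congr 1
  refine intervalIntegral.integral_congr_ae (Filter.Eventually.of_forall fun t ht => ?_)
  rw [Set.uIoc_of_le zero_le_one] at ht
  have hre : ((t : ℂ) * w).re = t * w.re := Complex.re_ofReal_mul _ _
  have him : ((t : ℂ) * w).im = t * w.im := Complex.im_ofReal_mul _ _
  have e1 : 2 * Complex.cos (t * conj w) = conj (2 * Complex.cos (t * w)) := by
    rw [map_mul, ← Complex.cos_conj, map_mul, Complex.conj_ofReal, conj2]
  have habs : |t * w.re| ≤ |w.re| := by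
    rw [abs_mul, abs_of_pos ht.1]
    exact mul_le_of_le_one_left (abs_nonneg _) ht.2
  rw [e1, Complex.log_conj _ (slit_arg (two_mul_slit (cos_slit ?_ ?_)))]
  · rw [hre]; exact habs.trans_lt h1
  · rw [hre, him]
    rcases h2 with h2 | h2
    · left; exact mul_ne_zero ht.1.ne' h2
    · right; exact habs.trans_lt h2

theorem LS_conj {w : ℂ} (h1 : 0 < w.re) (h2 : w.re < π) : LS (conj w) = conj (LS w) := by
  unfold LS
  rw [map_mul, ← interval_conj]
  congr 1
  refine intervalIntegral.integral_congr_ae (Filter.Eventually.of_forall fun t ht => ?_)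
  rw [Set.uIoc_of_le zero_le_one] at ht
  have hre : ((t : ℂ) * w).re = t * w.re := Complex.re_ofReal_mul _ _
  have e1 : 2 * Complex.sin (t * conj w) = conj (2 * Complex.sin (t * w)) := by
    rw [map_mul, ← Complex.sin_conj, map_mul, Complex.conj_ofReal, conj2]
  rw [e1, Complex.log_conj _ (slit_arg (two_mul_slit (sin_slit ?_ ?_)))]
  · rw [hre]; exact mul_pos ht.1 h1
  · rw [hre]
    exact (mul_le_of_le_one_left h1.le ht.2).trans_lt h2

theorem conj_pi_mul (δ : ℂ) : (π : ℂ) * conj δ = conj (π * δ) := by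
  rw [map_mul, Complex.conj_ofReal]

theorem RR_conj {δ φ : ℂ} (h1 : |(π * δ + φ / 2).re| < π) (h2 : |(π * δ - φ / 2).re| < π)
    (h3 : (π * δ + φ / 2).im ≠ 0 ∨ |(π * δ + φ / 2).re| < π / 2)
    (h4 : (π * δ - φ / 2).im ≠ 0 ∨ |(π * δ - φ / 2).re| < π / 2) :
    RR (conj δ) (conj φ) = conj (RR δ φ) := by
  unfold RR
  have e1 : (π : ℂ) * conj δ + conj φ / 2 = conj (π * δ + φ / 2) := by
    rw [conj_pi_mul, conj_half, map_add]
  have e2 : (π : ℂ) * conj δ - conj φ / 2 = conj (π * δ - φ / 2) := by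
    rw [conj_pi_mul, conj_half, map_sub]
  rw [e1, e2, LL_conj h1 h3, LL_conj h2 h4, map_div₀, map_add, Complex.conj_ofReal]

theorem RR_neg (δ φ : ℂ) : RR δ (-φ) = RR δ φ := by
  unfold RR
  rw [show (π : ℂ) * δ + -φ / 2 = π * δ - φ / 2 by ring,
    show (π : ℂ) * δ - -φ / 2 = π * δ + φ / 2 by ring, add_comm]

/-- the conditions of the reflection -/
structure Dom (ψ φ δ : ℂ) : Prop where
  pos : 0 < δ.re
  re1 : 2 * π * δ.re + |ψ.re| < π
  re2 : |φ.re| < π
  im : 2 * π * |δ.im| < φ.im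

theorem pi_mul_re (δ : ℂ) : ((π : ℂ) * δ).re = π * δ.re := Complex.re_ofReal_mul _ _

theorem pi_mul_im (δ : ℂ) : ((π : ℂ) * δ).im = π * δ.im := Complex.im_ofReal_mul _ _

theorem half_re (φ : ℂ) : (φ / 2).re = φ.re / 2 := by
  rw [show φ / 2 = ((1 / 2 : ℝ) : ℂ) * φ by push_cast; ring, Complex.re_ofReal_mul]
  ring

theorem half_im (φ : ℂ) : (φ / 2).im = φ.im / 2 := by
  rw [show φ / 2 = ((1 / 2 : ℝ) : ℂ) * φ by push_cast; ring, Complex.im_ofReal_mul]
  ring

theorem TH_conj {ψ φ δ : ℂ} (h : Dom ψ φ δ) :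
    TH (conj ψ) (-conj φ) (conj δ) = conj (TH ψ φ δ) := by
  have hπ := Real.pi_pos
  obtain ⟨h1, h2, h3, h4⟩ := h
  have hδ : π * δ.re < π / 2 := by
    have := abs_nonneg ψ.re
    linarith
  have hδ0 : 0 < π * δ.re := by positivity
  have a1 := abs_lt.1 h3
  have a2 : π * |δ.im| < φ.im / 2 := by linarith
  have a3 : |π * δ.im| < φ.im / 2 := by rwa [abs_mul, abs_of_pos hπ]
  have a4 := abs_lt.1 a3
  have a5 : |ψ.re| < π - 2 * π * δ.re := by linarith
  have a6 := abs_lt.1 a5
  unfold TH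
  rw [RR_neg, map_sub, map_add, RR_conj (δ := δ) (φ := ψ), RR_conj (δ := δ) (φ := φ),
    conj_pi_mul, LS_conj, map_mul, map_div₀, Complex.conj_ofReal, conj4]
  · rw [pi_mul_re]; exact hδ0
  · rw [pi_mul_re]; linarith
  · rw [Complex.add_re, pi_mul_re, half_re, abs_lt]
    constructor <;> linarith
  · rw [Complex.sub_re, pi_mul_re, half_re, abs_lt]
    constructor <;> linarith
  · left
    rw [Complex.add_im, pi_mul_im, half_im]
    intro h
    linarith
  · left
    rw [Complex.sub_im, pi_mul_im, half_im]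
    intro h
    linarith
  · rw [Complex.add_re, pi_mul_re, half_re, abs_lt]
    constructor <;> linarith
  · rw [Complex.sub_re, pi_mul_re, half_re, abs_lt]
    constructor <;> linarith
  · right
    rw [Complex.add_re, pi_mul_re, half_re, abs_lt]
    constructor <;> linarith
  · right
    rw [Complex.sub_re, pi_mul_re, half_re, abs_lt]
    constructor <;> linarith

theorem arctan_slit {z : ℂ} (h : z.re ≠ 0) : (1 + z * Complex.I) / (1 - z * Complex.I) ∈
    Complex.slitPlane := by
  rw [Complex.mem_slitPlane_iff]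
  right
  have h1 : (1 - z * Complex.I) ≠ 0 := by
    intro h2
    have := congrArg Complex.im h2
    simp at this
    exact h this
  rw [Complex.div_im]
  have h3 : 0 < Complex.normSq (1 - z * Complex.I) := Complex.normSq_pos.2 h1
  have e1 : (1 + z * Complex.I).im = z.re := by simp
  have e2 : (1 + z * Complex.I).re = 1 - z.im := by simp [sub_eq_add_neg]
  have e3 : (1 - z * Complex.I).im = -z.re := by simp
  have e4 : (1 - z * Complex.I).re = 1 + z.im := by simp
  rw [e1, e2, e3, e4, ← sub_div]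
  refine div_ne_zero ?_ h3.ne'
  have : z.re * (1 + z.im) - (1 - z.im) * -z.re = 2 * z.re := by ring
  rw [this]
  exact mul_ne_zero two_ne_zero h

theorem arctan_conj {z : ℂ} (h : z.re ≠ 0) : Complex.arctan (conj z) = conj (Complex.arctan z) := by
  unfold Complex.arctan
  have h1 := arctan_slit h
  have e1 : (1 + conj z * Complex.I) / (1 - conj z * Complex.I) =
      (conj ((1 + z * Complex.I) / (1 - z * Complex.I)))⁻¹ := by
    rw [map_div₀, inv_div, map_add, map_sub, map_mul, map_one, Complex.conj_I]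
    congr 1 <;> ring
  have h2 : (conj ((1 + z * Complex.I) / (1 - z * Complex.I))).arg ≠ π := by
    rw [Complex.arg_conj, if_neg (slit_arg h1)]
    intro h3
    have h4 := Complex.neg_pi_lt_arg ((1 + z * Complex.I) / (1 - z * Complex.I))
    linarith
  rw [e1, Complex.log_inv _ h2, Complex.log_conj _ (slit_arg h1), map_mul, map_div₀, map_neg,
    Complex.conj_I, conj2]
  ring

/-- the conditions of the reflection of `dst` -/
theorem dst_conj {ψ φ : ℂ}
    (h1 : 1 - Complex.sin (ψ / 2) ^ 2 * Complex.sin (φ / 2) ^ 2 ∈ Complex.slitPlane)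
    (h2 : (Complex.cos (ψ / 2) * Complex.cos (φ / 2) /
      (1 - Complex.sin (ψ / 2) ^ 2 * Complex.sin (φ / 2) ^ 2) ^ (1 / 2 : ℂ)).re ≠ 0) :
    dst (conj ψ) (-conj φ) = conj (dst ψ φ) := by
  unfold dst
  have e0 := conj_half
  have e1 : Complex.cos (-conj φ / 2) = conj (Complex.cos (φ / 2)) := by
    rw [neg_div, Complex.cos_neg, e0, Complex.cos_conj]
  have e2 : Complex.sin (-conj φ / 2) ^ 2 = conj (Complex.sin (φ / 2) ^ 2) := by
    rw [neg_div, Complex.sin_neg, neg_sq, e0, Complex.sin_conj, map_pow]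
  have e3 : Complex.sin (conj ψ / 2) ^ 2 = conj (Complex.sin (ψ / 2) ^ 2) := by
    rw [e0, Complex.sin_conj, map_pow]
  have e4 : (1 - conj (Complex.sin (ψ / 2) ^ 2) * conj (Complex.sin (φ / 2) ^ 2)) ^ (1 / 2 : ℂ) =
      conj ((1 - Complex.sin (ψ / 2) ^ 2 * Complex.sin (φ / 2) ^ 2) ^ (1 / 2 : ℂ)) := by
    rw [← map_mul, show (1 : ℂ) - conj (Complex.sin (ψ / 2) ^ 2 * Complex.sin (φ / 2) ^ 2) =
      conj (1 - Complex.sin (ψ / 2) ^ 2 * Complex.sin (φ / 2) ^ 2) by rw [map_sub, map_one],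
      Complex.conj_cpow _ _ (slit_arg h1), map_div₀, map_one, conj2]
  rw [e1, e2, e3, e4, e0, Complex.cos_conj, ← map_mul, ← map_div₀, arctan_conj h2, map_mul]
  simp

theorem Rp_conj (N d : ℕ) (z : ℂ) : Rp N d (conj z) = conj (Rp N d z) := by
  unfold Rp
  rw [map_prod]
  refine Finset.prod_congr rfl fun j _ => ?_
  rw [map_add, map_mul, map_mul, Complex.conj_ofReal, Complex.cos_conj, conj2]

theorem Rp_neg (N d : ℕ) (z : ℂ) : Rp N d (-z) = Rp N d z := by
  unfold Rp
  rw [Complex.cos_neg]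

theorem k0_conj (N : ℕ) (ψ φ : ℂ) : k0 N (conj ψ) (-conj φ) = conj (k0 N ψ φ) := by
  unfold k0
  rw [map_sum]
  refine Finset.sum_congr rfl fun d _ => ?_
  rw [Rp_neg, Rp_conj, Rp_conj, map_div₀, map_mul, map_pow, Complex.conj_ofReal]

end Pool.Agent.N839.VS
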