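import Pool.Agent.N839.VS.Win2

/-!
# VS/A8: asymptotics of the lower half of the kernel
-/

set_option autoImplicit false

namespace Pool.Agent.N839.VS

open Filter Finset Topology Metric MeasureTheory
open Pool.Agent.W711.HT Pool.Agent.N561
open scoped Real ComplexConjugate

theorem dst_slit {φ₀ : ℂ} (hφ : φ₀ ∈ GG) :
    1 - Complex.sin ((0 : ℂ) / 2) ^ 2 * Complex.sin (φ₀ / 2) ^ 2 ∈ Complex.slitPlane ∧
    0 < (Complex.cos ((0 : ℂ) / 2) * Complex.cos (φ₀ / 2) /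
      (1 - Complex.sin ((0 : ℂ) / 2) ^ 2 * Complex.sin (φ₀ / 2) ^ 2) ^ (1 / 2 : ℂ)).re := by
  have hπ := Real.pi_gt_three
  rw [zero_div, Complex.sin_zero, Complex.cos_zero]
  simp only [ne_eq, OfNat.ofNat_ne_zero, not_false_eq_true, zero_pow, zero_mul, sub_zero,
    Complex.one_cpow, div_one, one_mul]
  refine ⟨Complex.one_mem_slitPlane, ?_⟩
  rw [cos_re, half_re]
  have h1 := hφ.1
  have h2 := abs_lt.1 h1
  have := Real.cos_pos_of_mem_Ioo (x := φ₀.re / 2) ⟨by linarith, by linarith⟩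
  have := Real.cosh_pos (φ₀ / 2).im
  positivity

theorem win_axis (T : Dat) (hSum : S_LAPSUM) (hG : S_SGP) (hP : S_PERT) {φ₀ : ℂ}
    (hφ : φ₀ ∈ GG) (hre : φ₀.re = 0) : Win T φ₀ := by
  have hπ := Real.pi_pos
  obtain ⟨cs, cd⟩ := cont_sg hG hφ
  obtain ⟨r, c, C, S⟩ := hG φ₀ hφ
  have hr := S.hr.1
  have h0r := zero_mem_Rc hr hr
  have hφr := mem_ball_self hr (x := φ₀)
  have him : 0 < φ₀.im := hφ.2.1
  -- the critical point is real
  set z₀ : ℂ := dst 0 φ₀ with hz₀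
  have hconj : -conj φ₀ = φ₀ := by
    apply Complex.ext
    · simp [hre]
    · simp
  have hz₀im : z₀.im = 0 := by
    have h1 := dst_conj (dst_slit hφ).1 (dst_slit hφ).2.ne'
    rw [hconj, map_zero, ← hz₀] at h1
    have h2 := congrArg Complex.im h1
    rw [Complex.conj_im] at h2
    linarith
  obtain ⟨d1, d2, -⟩ := S.dpos 0 h0r φ₀ hφr
  rw [← hz₀, Complex.zero_re, abs_zero, add_zero] at d2
  rw [← hz₀] at d1
  have d3 : z₀.re < 1 / 2 := by nlinarith
  have hz₀re : z₀ = ((z₀.re : ℝ) : ℂ) := by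
    apply Complex.ext
    · rw [Complex.ofReal_re]
    · rw [Complex.ofReal_im, hz₀im]
  -- the derivative vanishes
  have hD : Du φ₀ z₀.re = 0 := by
    have h1 := S.dder 0 h0r φ₀ hφr
    rw [← hz₀, hz₀re] at h1
    have h2 := h1.real_of_complex
    exact (u_deriv hre d1 d3).unique h2
  have hmax : ∀ x : ℝ, 0 < x → x < 1 / 2 → x ≠ z₀.re → (TH 0 φ₀ x).re < (sg 0 φ₀).re := by
    intro x h1 h2 h3
    have h4 := u_max hre d1 d3 hD h1 h2 h3
    rw [← hz₀re] at h4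
    exact h4
  have hmax' : ∀ x : ℝ, 0 < x → x < 1 / 2 → (TH 0 φ₀ x).re ≤ (sg 0 φ₀).re := by
    intro x h1 h2
    by_cases h3 : x = z₀.re
    · rw [h3, ← hz₀re]
      exact le_rfl
    · exact (hmax x h1 h2 h3).le
  refine ⟨z₀.re / 2, (z₀.re + 1 / 2) / 2, by positivity, by linarith,
    fun a b ha haa₀ hbb₀ hb => ?_⟩
  have hza : a < z₀.re := by linarith
  have hzb : z₀.re < b := by linarith
  have hb'1 : b < (b + 1 / 2) / 2 := by linarith
  have hb'2 : (b + 1 / 2) / 2 < 1 / 2 := by linarith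
  have hb0 : 0 < b := by linarith
  obtain ⟨h, hh, hh2⟩ : ∃ h : ℝ, 0 < h ∧ 2 * π * h < φ₀.im := by
    refine ⟨φ₀.im / (4 * π), by positivity, ?_⟩
    have : 2 * π * (φ₀.im / (4 * π)) = φ₀.im / 2 := by field_simp; norm_num
    rw [this]
    linarith
  refine ⟨by linarith, a / 2, (b + 1 / 2) / 2, h, by linarith, by linarith, hb'1, hb'2, hh, ?_⟩
  have hp₀ := mem_PP hφ hb'2 hh2
  have hTd : DifferentiableOn ℂ (TH 0 φ₀) (OR (a / 2) ((b + 1 / 2) / 2) h) :=
    TH_diff T (p := ((0 : ℂ), φ₀)) (by linarith) hb'2 hh hp₀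
  have hreal : ∀ x : ℝ, a / 2 < x → x < (b + 1 / 2) / 2 → (TH 0 φ₀ x).im = 0 := by
    intro x h1 h2
    have h3 : Dom 0 φ₀ x := by
      refine ⟨?_, ?_, ?_, ?_⟩
      · rw [Complex.ofReal_re]; linarith
      · rw [Complex.ofReal_re, Complex.zero_re, abs_zero]; nlinarith
      · rw [hre, abs_zero]; exact hπ
      · rw [Complex.ofReal_im, abs_zero, mul_zero]; exact him
    have h4 := TH_conj h3
    rw [map_zero, hconj, Complex.conj_ofReal] at h4
    have h5 := congrArg Complex.im h4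
    rw [Complex.conj_im] at h5
    linarith
  obtain ⟨h₀, hh₀, hh₀h, hv⟩ := vert (a := a) (b := b) (by linarith) hb'1 hh hTd hreal
  have hua := hmax a ha (by linarith) hza.ne
  have hub := hmax b hb0 hb hzb.ne'
  obtain ⟨h₁, hh₁, hh₁0, hh₁a, hh₁b⟩ : ∃ h₁ : ℝ, 0 < h₁ ∧ h₁ ≤ h₀ ∧
      (TH 0 φ₀ a).re + π * h₁ < (sg 0 φ₀).re ∧ (TH 0 φ₀ b).re + π * h₁ < (sg 0 φ₀).re := by
    refine ⟨min h₀ (min (((sg 0 φ₀).re - (TH 0 φ₀ a).re) / (2 * π))
      (((sg 0 φ₀).re - (TH 0 φ₀ b).re) / (2 * π))), ?_, min_le_left _ _, ?_, ?_⟩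
    · refine lt_min hh₀ (lt_min ?_ ?_)
      · exact div_pos (by linarith) (by positivity)
      · exact div_pos (by linarith) (by positivity)
    · have h1 := (min_le_right h₀ (min (((sg 0 φ₀).re - (TH 0 φ₀ a).re) / (2 * π))
        (((sg 0 φ₀).re - (TH 0 φ₀ b).re) / (2 * π)))).trans (min_le_left _ _)
      rw [le_div_iff₀ (by positivity)] at h1
      linarith
    · have h1 := (min_le_right h₀ (min (((sg 0 φ₀).re - (TH 0 φ₀ a).re) / (2 * π))
        (((sg 0 φ₀).re - (TH 0 φ₀ b).re) / (2 * π)))).trans (min_le_right _ _)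
      rw [le_div_iff₀ (by positivity)] at h1
      linarith
  have hcom := common T hG hP hφ (a := a) (a' := a / 2) (b := b) (b' := (b + 1 / 2) / 2)
    (by linarith) (by linarith) hb'1 hb'2 hh hh2 hza hzb (by rw [← hz₀, hz₀im, abs_zero]; exact hh)
    (by
      intro x hx1 hx2 hx3
      rw [← hz₀] at hx3 ⊢
      rw [hz₀im, Complex.ofReal_zero, zero_mul, add_zero]
      exact hmax x (by linarith) (by linarith) hx3)
  have cim : ContinuousAt (fun p : ℂ × ℂ => (dst p.1 p.2).im) (0, φ₀) :=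
    Complex.continuous_im.continuousAt.comp cd
  have hzim : ∀ᶠ p in 𝓝 ((0 : ℂ), φ₀), |(dst p.1 p.2).im| < h₁ := by
    refine cim.abs.eventually_lt_const ?_
    simp only
    rw [← hz₀, hz₀im, abs_zero]
    exact hh₁
  have hmem : ∀ x : ℝ, a ≤ x → x ≤ b → ∀ y : ℝ, |y| ≤ h₁ →
      (x : ℂ) + y * Complex.I ∈ CR (a / 2) ((b + 1 / 2) / 2) h := by
    intro x hx1 hx2 y hy
    refine ⟨?_, ?_, ?_⟩
    · simp; linarith
    · simp; linarith
    · simp; linarith
  have cx2 : ∀ t : ℝ, ContinuousAt (fun x : (ℂ × ℂ) × ℝ => (x.2 : ℂ)) ((0, φ₀), t) := fun t =>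
    Complex.continuous_ofReal.continuousAt.comp continuousAt_snd
  -- the vertical sides
  have side : ∀ x : ℝ, a ≤ x → x ≤ b → (TH 0 φ₀ x).re + π * h₁ < (sg 0 φ₀).re →
      ∀ᶠ p in 𝓝 ((0 : ℂ), φ₀), ∀ t ∈ Set.Icc (-h₁) h₁,
        (TH p.1 p.2 (x + (t : ℂ) * Complex.I)).re + 0 < (sg p.1 p.2).re := by
    intro x hx1 hx2 hx3
    refine side_ev T hG hφ (a' := a / 2) (by linarith) hb'2 hh hp₀ isCompact_Icc
      (f := fun q => (x : ℂ) + (q.2 : ℂ) * Complex.I) (c := fun _ => 0) ?_ ?_ ?_ ?_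
    · intro t ht
      exact continuousAt_const.add ((cx2 t).mul continuousAt_const)
    · intro t ht
      exact continuousAt_const
    · intro t ht
      exact hmem x hx1 hx2 t (abs_le.2 ht)
    · intro t ht
      have ht' := abs_le.2 ht
      have h1 := hv x t hx1 hx2 (ht'.trans hh₁0)
      have h2 : π * |t| ≤ π * h₁ := by gcongr
      simp only
      linarith
  -- the horizontal sides
  have topp : ∀ᶠ p in 𝓝 ((0 : ℂ), φ₀), ∀ x ∈ Set.Icc a b,
        (TH p.1 p.2 ((x : ℂ) + (h₁ : ℂ) * Complex.I)).re + (-(2 * π * h₁)) < (sg p.1 p.2).re := by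
    refine side_ev T hG hφ (a' := a / 2) (by linarith) hb'2 hh hp₀ isCompact_Icc
      (f := fun q => (q.2 : ℂ) + (h₁ : ℂ) * Complex.I) (c := fun _ => -(2 * π * h₁)) ?_ ?_ ?_ ?_
    · intro t ht
      exact (cx2 t).add continuousAt_const
    · intro t ht
      exact continuousAt_const
    · intro t ht
      exact hmem t ht.1 ht.2 h₁ (abs_of_pos hh₁).le
    · intro t ht
      have h1 := hv t h₁ ht.1 ht.2 ((abs_of_pos hh₁).le.trans hh₁0)
      rw [abs_of_pos hh₁] at h1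
      have h2 := hmax' t (by linarith [ht.1]) (by linarith [ht.2])
      have h3 : 0 < π * h₁ := by positivity
      simp only
      linarith
  have bott : ∀ᶠ p in 𝓝 ((0 : ℂ), φ₀), ∀ x ∈ Set.Icc a b,
        (TH p.1 p.2 ((x : ℂ) - (h₁ : ℂ) * Complex.I)).re + (-(2 * π * h₁)) < (sg p.1 p.2).re := by
    refine side_ev T hG hφ (a' := a / 2) (by linarith) hb'2 hh hp₀ isCompact_Icc
      (f := fun q => (q.2 : ℂ) - (h₁ : ℂ) * Complex.I) (c := fun _ => -(2 * π * h₁)) ?_ ?_ ?_ ?_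
    · intro t ht
      exact (cx2 t).sub continuousAt_const
    · intro t ht
      exact continuousAt_const
    · intro t ht
      have := hmem t ht.1 ht.2 (-h₁) (by rw [abs_neg, abs_of_pos hh₁])
      simpa [sub_eq_add_neg] using this
    · intro t ht
      have h1 := hv t (-h₁) ht.1 ht.2 (by rw [abs_neg, abs_of_pos hh₁]; exact hh₁0)
      rw [abs_neg, abs_of_pos hh₁, Complex.ofReal_neg, neg_mul, ← sub_eq_add_neg] at h1
      have h2 := hmax' t (by linarith [ht.1]) (by linarith [ht.2])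
      have h3 : 0 < π * h₁ := by positivity
      simp only
      linarith
  have hab : a ≤ b := by linarith
  filter_upwards [hcom, hzim, side a le_rfl hab hh₁a, side b hab le_rfl hh₁b, topp, bott]
    with p g1 g2 g3 g4 g5 g6
  obtain ⟨k1, k2, k3, k4, k5, k6⟩ := g1
  refine ⟨k1, ?_, fun ψ φ hψ hφt hPP => ?_⟩
  · have := g4 0 ⟨by linarith, hh₁.le⟩
    simpa using this
  have hmem' : ∀ x y : ℝ, a ≤ x → x ≤ b → |y| ≤ h₁ →
      (x : ℂ) + y * Complex.I ∈ OR (a / 2) ((b + 1 / 2) / 2) h := by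
    intro x y hx1 hx2 hy
    refine ⟨?_, ?_, ?_⟩
    · simp; linarith
    · simp; linarith
    · simp; linarith
  exact hSum (fun N => qq' T (ψ N) (φ N) N) (TH p.1 p.2) (OR (a / 2) ((b + 1 / 2) / 2) h) a b h₁
    (dst p.1 p.2) (fun N => ⌈a * N⌉₊) (fun N => ⌊b * N⌋₊) (isOpen_OR _ _ _)
    (Filter.eventually_atTop.2 ⟨1, fun N hN =>
      (qq_diff T (by linarith) hb'2 hh (hPP N) hN).mono (OR_sub_CR _ _ _)⟩)
    (TH_diff T (by linarith) hb'2 hh k1)
    ((qq_unif T (by linarith) hb'2 hh k1 hψ hφt).mono (OR_sub_CR _ _ _))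
    hmem' hh₁ (tend_ceil ha) (tend_floor hb0) k2 k3 g2 k4 k5 k6
    (fun y hy => by
      have h1 := g3 y (abs_le.1 hy)
      have h2 := g4 y (abs_le.1 hy)
      rw [add_zero] at h1 h2
      exact ⟨h1, h2⟩)
    (fun x hx1 hx2 => by
      have h1 := g5 x ⟨hx1, hx2⟩
      have h2 := g6 x ⟨hx1, hx2⟩
      rw [← sub_eq_add_neg] at h1 h2
      exact ⟨h1, h2⟩)

/-! ### positivity of `bet`, adapted from `Pool.Agent.TH563.Z.J365` (starting file) -/

theorem bet_ge : Real.log 2 / 2 ≤ bet := by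
  have hπ := Real.pi_pos
  have hI : ∀ a b : ℝ, IntervalIntegrable (fun x => Real.log (Real.sin x)) volume a b :=
    fun a b => intervalIntegrable_log_sin
  have h1 : ∫ x in (0:ℝ)..(π / 2), Real.log (Real.sin x) = -Real.log 2 * π / 2 :=
    integral_log_sin_zero_pi_div_two
  have h2 : (∫ x in (0:ℝ)..(π / 4), Real.log (Real.sin x)) +
      (∫ x in (π / 4)..(π / 2), Real.log (Real.sin x)) =
      ∫ x in (0:ℝ)..(π / 2), Real.log (Real.sin x) :=
    intervalIntegral.integral_add_adjacent_intervals (hI _ _) (hI _ _)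
  have h3 : -(Real.log 2 / 2) * (π / 4) ≤ ∫ x in (π / 4)..(π / 2), Real.log (Real.sin x) := by
    have h4 : ∫ x in (π / 4)..(π / 2), (-(Real.log 2 / 2)) ≤
        ∫ x in (π / 4)..(π / 2), Real.log (Real.sin x) := by
      refine intervalIntegral.integral_mono_on (by linarith) (by simp) (hI _ _) ?_
      intro x hx
      have h5 : Real.sin (π / 4) ≤ Real.sin x :=
        Real.sin_le_sin_of_le_of_le_pi_div_two (by linarith) hx.2 hx.1
      have h6 : 0 < Real.sin (π / 4) := Real.sin_pos_of_pos_of_lt_pi (by linarith) (by linarith)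
      have h7 := Real.log_le_log h6 h5
      have h8 : Real.log (Real.sin (π / 4)) = -(Real.log 2 / 2) := by
        rw [Real.sin_pi_div_four, Real.log_div (by positivity) (by norm_num),
          Real.log_sqrt (by norm_num)]
        ring
      linarith
    rw [intervalIntegral.integral_const, smul_eq_mul] at h4
    refine le_trans (le_of_eq ?_) h4
    ring
  have h9 : ∫ t in (0:ℝ)..(π / 4), Real.log (2 * Real.sin t) =
      ∫ t in (0:ℝ)..(π / 4), (Real.log 2 + Real.log (Real.sin t)) := by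
    refine intervalIntegral.integral_congr_ae (Filter.Eventually.of_forall ?_)
    intro t ht
    rw [Set.uIoc_of_le (by linarith)] at ht
    have h10 : 0 < Real.sin t := Real.sin_pos_of_pos_of_lt_pi ht.1 (by linarith [ht.2])
    rw [Real.log_mul (by norm_num) h10.ne']
  have h11 : ∫ t in (0:ℝ)..(π / 4), (Real.log 2 + Real.log (Real.sin t)) =
      π / 4 * Real.log 2 + ∫ t in (0:ℝ)..(π / 4), Real.log (Real.sin t) := by
    rw [intervalIntegral.integral_add (by simp) (hI _ _), intervalIntegral.integral_const,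
      smul_eq_mul]
    ring
  have h12 : ∫ t in (0:ℝ)..(π / 4), Real.log (2 * Real.sin t) ≤ -(π / 8 * Real.log 2) := by
    rw [h9, h11]
    linarith
  unfold bet
  have h13 : Real.log 2 / 2 = -(4 / π) * -(π / 8 * Real.log 2) := by
    field_simp; norm_num
  rw [h13]
  have h14 : 0 ≤ 4 / π := by positivity
  have h15 := mul_le_mul_of_nonneg_left h12 h14
  linarith

theorem bet_pos : 0 < bet := by
  have := bet_ge
  have := Real.log_pos (by norm_num : (1 : ℝ) < 2)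
  linarith

/-- the conclusion of `S_NEAR` at one point -/
def NearAt (φ₀ : ℂ) : Prop := ∃ r : ℝ, 0 < r ∧ ball φ₀ r ⊆ GG ∧ ∀ ε : ℝ, 0 < ε →
  ∀ᶠ N : ℕ in atTop, ∀ ψ ∈ Rc r r, ∀ φ ∈ ball φ₀ r,
    k0 N ψ φ ≠ 0 ∧ |Real.log ‖k0 N ψ φ‖ - N * (sg ψ φ).re| ≤ ε * N

theorem near_of_win (T : Dat) (hSeq : S_SEQ) (hG : S_SGP) (hSF : S_SF) {φ₀ : ℂ}
    (hφ : φ₀ ∈ GG) (hWin : Win T φ₀) : NearAt φ₀ := by
  have hπ := Real.pi_pos
  have hbet := bet_pos
  have hM := MM_pos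
  obtain ⟨a₀, b₀, ha₀, hb₀, hw⟩ := hWin
  obtain ⟨a₁, b₁, ha₁, ha₁6, hb₁3, hb₁, hβ, hbM⟩ := exists_ab (β := bet / 4) (by positivity)
  have hapos : 0 < min a₀ a₁ := lt_min ha₀ ha₁
  have hblt : max b₀ ((b₁ + 1 / 2) / 2) < 1 / 2 := max_lt hb₀ (by linarith)
  obtain ⟨hab, a', b', h, ha', haa, hbb, hb', hh, hev⟩ := hw (min a₀ a₁)
    (max b₀ ((b₁ + 1 / 2) / 2)) hapos (min_le_left _ _) (le_max_left _ _) hblt
  obtain ⟨a, hadef⟩ : ∃ a : ℝ, a = min a₀ a₁ := ⟨_, rfl⟩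
  obtain ⟨b, hbdef⟩ : ∃ b : ℝ, b = max b₀ ((b₁ + 1 / 2) / 2) := ⟨_, rfl⟩
  rw [← hadef, ← hbdef] at hab hev
  rw [← hadef] at haa hapos
  rw [← hbdef] at hbb hblt
  have haβ := hβ a hapos (by rw [hadef]; exact min_le_right _ _)
  have hb₁b : b₁ < b := by
    have := le_max_right b₀ ((b₁ + 1 / 2) / 2)
    rw [← hbdef] at this
    linarith
  obtain ⟨r₀, c, C, S⟩ := hG φ₀ hφ
  have hr₀ := S.hr.1
  have hnb : ∀ᶠ p in 𝓝 ((0 : ℂ), φ₀), p ∈ Rc r₀ r₀ ×ˢ ball φ₀ r₀ :=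
    ((isOpen_Rc r₀ r₀).prod isOpen_ball).mem_nhds ⟨zero_mem_Rc hr₀ hr₀, mem_ball_self hr₀⟩
  have hcs := (cont_sg hG hφ).1
  have hlow : bet ≤ (sg 0 φ₀).re := hSF.2.2.2.2 φ₀ hφ
  have e1 : ∀ᶠ p in 𝓝 ((0 : ℂ), φ₀), bet / 2 < (sg p.1 p.2).re := by
    have : ContinuousAt (fun p : ℂ × ℂ => (sg p.1 p.2).re) (0, φ₀) :=
      Complex.continuous_re.continuousAt.comp hcs
    refine this.eventually_const_lt ?_
    simp only
    linarith
  have e2 : ∀ᶠ p : ℂ × ℂ in 𝓝 ((0 : ℂ), φ₀), |p.1.im| < 2 := by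
    have : ContinuousAt (fun p : ℂ × ℂ => |p.1.im|) (0, φ₀) :=
      (Complex.continuous_im.comp continuous_fst).abs.continuousAt
    refine this.eventually_lt_const ?_
    simp
  have e3 : ∀ᶠ p : ℂ × ℂ in 𝓝 ((0 : ℂ), φ₀), |p.2.im| < 2 := by
    have : ContinuousAt (fun p : ℂ × ℂ => |p.2.im|) (0, φ₀) :=
      (Complex.continuous_im.comp continuous_snd).abs.continuousAt
    refine this.eventually_lt_const ?_
    simp only
    rw [abs_of_pos hφ.2.1]
    linarith [hφ.2.2.1]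
  have e4 : ∀ᶠ p : ℂ × ℂ in 𝓝 ((0 : ℂ), φ₀), ‖2 * Complex.cos p.1 - 2‖ < 1 / (2 * MM) := by
    have : ContinuousAt (fun p : ℂ × ℂ => ‖2 * Complex.cos p.1 - 2‖) (0, φ₀) := by fun_prop
    refine this.eventually_lt_const ?_
    simp only [Complex.cos_zero, mul_one, sub_self, norm_zero]
    positivity
  obtain ⟨ρ, hρ, hP⟩ := Metric.eventually_nhds_iff.1
    (hev.and (hnb.and (e1.and (e2.and (e3.and e4)))))
  obtain ⟨r, hr, hrρ, hrr₀⟩ : ∃ r : ℝ, 0 < r ∧ 2 * r < ρ ∧ r ≤ r₀ := by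
    refine ⟨min (ρ / 4) r₀, by positivity, ?_, min_le_right _ _⟩
    have := min_le_left (ρ / 4) r₀
    linarith
  have hKmem : ∀ p : ℂ × ℂ, p ∈ (Set.Icc (-r) r ×ℂ Set.Icc (-r) r) ×ˢ closedBall φ₀ r ↔
      (|p.1.re| ≤ r ∧ |p.1.im| ≤ r) ∧ ‖p.2 - φ₀‖ ≤ r := by
    intro p
    rw [Set.mem_prod, Complex.mem_reProdIm, Set.mem_Icc, Set.mem_Icc, abs_le, abs_le,
      mem_closedBall, dist_eq_norm]
  obtain ⟨K, hKdef⟩ : ∃ K : Set (ℂ × ℂ),
    K = (Set.Icc (-r) r ×ℂ Set.Icc (-r) r) ×ˢ closedBall φ₀ r := ⟨_, rfl⟩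
  have hKc : IsCompact K := by
    rw [hKdef]
    exact ((isCompact_Icc.reProdIm isCompact_Icc)).prod (isCompact_closedBall _ _)
  rw [← hKdef] at hKmem
  have hKP : ∀ p ∈ K, dist p ((0 : ℂ), φ₀) < ρ := by
    intro p hp
    obtain ⟨⟨h1, h2⟩, h3⟩ := (hKmem p).1 hp
    rw [Prod.dist_eq, dist_zero_right, dist_eq_norm]
    refine max_lt ?_ (by simp only; linarith)
    have := Complex.norm_le_abs_re_add_abs_im p.1
    linarith
  have hΦ : ContinuousOn (fun p : ℂ × ℂ => (sg p.1 p.2).re) K := by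
    refine Complex.continuous_re.comp_continuousOn (S.san.continuousOn.mono ?_)
    intro p hp
    exact (hP (hKP p hp)).2.1
  have hmain := hSeq (ℂ × ℂ) K hKc
    (fun N p => Real.log ‖k0 N p.1 p.2‖ / N) (fun p => (sg p.1 p.2).re) hΦ (by
    intro p p₀ hp₀ hp htp
    have htp1 : Tendsto (fun N => (p N).1) atTop (𝓝 p₀.1) :=
      (continuous_fst.tendsto p₀).comp htp
    have htp2 : Tendsto (fun N => (p N).2) atTop (𝓝 p₀.2) :=
      (continuous_snd.tendsto p₀).comp htp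
    obtain ⟨⟨g1, g2, g3⟩, g4, g5, g6, g7, g8⟩ := hP (hKP p₀ hp₀)
    have hpN := fun N => hP (hKP (p N) (hp N))
    exact core T ha' haa hab hbb hb' hh haβ (by linarith) hb₁b hbM (by positivity)
      (by linarith) g1 htp1 htp2 (fun N => (hpN N).1.1)
      (fun N => (hpN N).2.2.2.1.le) (fun N => (hpN N).2.2.2.2.1.le)
      (fun N => (hpN N).2.2.2.2.2.le) g2
      (g3 _ _ htp1 htp2 (fun N => (hpN N).1.1)))
  refine ⟨r, hr, (ball_subset_ball hrr₀).trans S.sub, fun ε hε => ?_⟩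
  have hmin : 0 < min ε (bet / 4) := lt_min hε (by positivity)
  filter_upwards [hmain _ hmin, eventually_gt_atTop 0] with N h1 h2 ψ hψ φ hφ'
  have hN : (0 : ℝ) < N := by exact_mod_cast h2
  have hpK : (ψ, φ) ∈ K := (hKmem _).2 ⟨⟨hψ.1.le, hψ.2.le⟩, by
    rw [← dist_eq_norm]; exact (mem_ball.1 hφ').le⟩
  have h3 := h1 _ hpK
  have h4 := (hP (hKP _ hpK)).2.2.1
  simp only at h3 h4
  constructor
  · intro hker
    rw [hker, norm_zero, Real.log_zero, zero_div, zero_sub, abs_neg] at h3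
    have h5 := (le_abs_self _).trans (h3.trans (min_le_right _ _))
    linarith
  · have h5 := h3.trans (min_le_left _ _)
    have e1 : Real.log ‖k0 N ψ φ‖ - N * (sg ψ φ).re =
        N * (Real.log ‖k0 N ψ φ‖ / N - (sg ψ φ).re) := by
      field_simp
    rw [e1, abs_mul, abs_of_pos hN, mul_comm]
    gcongr

/-- the reflection in the imaginary axis -/
theorem near_refl (hG : S_SGP) {φ₀ : ℂ} (hφ : φ₀ ∈ GG) (hN : NearAt (-conj φ₀)) :
    NearAt φ₀ := by
  obtain ⟨r, hr, -, hN⟩ := hN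
  obtain ⟨r₀, c, C, S⟩ := hG φ₀ hφ
  have hr₀ := S.hr.1
  obtain ⟨s1, s2⟩ := dst_slit hφ
  -- the conditions of the reflection of `dst`
  have c1 : ContinuousAt (fun p : ℂ × ℂ => 1 - Complex.sin (p.1 / 2) ^ 2 *
      Complex.sin (p.2 / 2) ^ 2) (0, φ₀) := by fun_prop
  have e1 : ∀ᶠ p : ℂ × ℂ in 𝓝 ((0 : ℂ), φ₀), 1 - Complex.sin (p.1 / 2) ^ 2 *
      Complex.sin (p.2 / 2) ^ 2 ∈ Complex.slitPlane :=
    c1.eventually_mem (Complex.isOpen_slitPlane.mem_nhds s1)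
  have c2 : ContinuousAt (fun p : ℂ × ℂ => (Complex.cos (p.1 / 2) * Complex.cos (p.2 / 2) /
      (1 - Complex.sin (p.1 / 2) ^ 2 * Complex.sin (p.2 / 2) ^ 2) ^ (1 / 2 : ℂ)).re)
      (0, φ₀) := by
    refine Complex.continuous_re.continuousAt.comp ?_
    refine ContinuousAt.div (by fun_prop) (c1.cpow continuousAt_const s1) ?_
    rw [Ne, Complex.cpow_eq_zero_iff, not_and_or]
    left
    exact Complex.slitPlane_ne_zero s1
  have e2 := c2.eventually_const_lt s2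
  obtain ⟨ρ, hρ, hP⟩ := Metric.eventually_nhds_iff.1 (e1.and e2)
  obtain ⟨r', hr', h1, h2, h3⟩ : ∃ r' : ℝ, 0 < r' ∧ 2 * r' ≤ ρ ∧ r' ≤ r ∧ r' ≤ r₀ := by
    refine ⟨min (ρ / 2) (min r r₀), by positivity, ?_,
      (min_le_right _ _).trans (min_le_left _ _), (min_le_right _ _).trans (min_le_right _ _)⟩
    have := min_le_left (ρ / 2) (min r r₀)
    linarith
  refine ⟨r', hr', (ball_subset_ball h3).trans S.sub, fun ε hε => ?_⟩
  filter_upwards [hN ε hε] with N hN ψ hψ φ hφ'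
  have hψ2 : conj ψ ∈ Rc r r := by
    refine ⟨?_, ?_⟩
    · rw [Complex.conj_re]; exact hψ.1.trans_le h2
    · rw [Complex.conj_im, abs_neg]; exact hψ.2.trans_le h2
  have hφ2 : -conj φ ∈ ball (-conj φ₀) r := by
    rw [mem_ball, dist_neg_neg, Complex.dist_conj_conj]
    exact (mem_ball.1 hφ').trans_le h2
  have hd : dist ((ψ, φ) : ℂ × ℂ) (0, φ₀) < ρ := by
    rw [Prod.dist_eq, dist_zero_right]
    refine max_lt ?_ ?_
    · have := Complex.norm_le_abs_re_add_abs_im ψ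
      have a1 := hψ.1
      have a2 := hψ.2
      simp only
      linarith
    · have := mem_ball.1 hφ'
      simp only
      linarith
  obtain ⟨g1, g2⟩ := hP hd
  simp only at g1 g2
  have hψr₀ : ψ ∈ Rc r₀ r₀ := ⟨hψ.1.trans_le h3, hψ.2.trans_le h3⟩
  have hφr₀ : φ ∈ ball φ₀ r₀ := ball_subset_ball h3 hφ'
  obtain ⟨d1, d2, d3⟩ := S.dpos ψ hψr₀ φ hφr₀
  have hdom : Dom ψ φ (dst ψ φ) := by
    refine ⟨d1, d2, ?_, d3⟩
    have := (S.sub hφr₀).1
    have := Real.pi_gt_three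
    linarith
  have hsg : sg (conj ψ) (-conj φ) = conj (sg ψ φ) := by
    unfold sg
    rw [dst_conj g1 g2.ne', TH_conj hdom]
  obtain ⟨k1, k2⟩ := hN (conj ψ) hψ2 (-conj φ) hφ2
  rw [k0_conj] at k1 k2
  rw [hsg, Complex.conj_re, RCLike.norm_conj] at k2
  exact ⟨fun h => k1 (by rw [h, map_zero]), k2⟩

/-- **Job A8.** -/
theorem near (hF : S_FOU) (hL : S_LAPL) (hW : S_LAPW) (hFl : S_FLAT) (hS : S_SIDE)
    (hG : S_SGP) (hSF : S_SF) (hP : S_PERT) (hSum : S_LAPSUM) (hSeq : S_SEQ) : S_NEAR := by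
  obtain ⟨T⟩ := exists_Dat hF hL
  have hpos : ∀ φ₀ ∈ GG, 0 < φ₀.re → NearAt φ₀ := fun φ₀ hφ hre =>
    near_of_win T hSeq hG hSF hφ (win_pos T hW hFl hS hG hP hφ hre)
  intro φ₀ hφ
  rcases lt_trichotomy φ₀.re 0 with h | h | h
  · refine near_refl hG hφ (hpos _ ?_ ?_)
    · refine ⟨?_, ?_, ?_, ?_⟩
      · rw [Complex.neg_re, Complex.conj_re, abs_neg]; exact hφ.1
      · rw [Complex.neg_im, Complex.conj_im, neg_neg]; exact hφ.2.1
      · rw [Complex.neg_im, Complex.conj_im, neg_neg]; exact hφ.2.2.1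
      · rw [Complex.neg_re, Complex.conj_re, Complex.neg_im, Complex.conj_im, neg_neg,
          Real.cos_neg]
        exact hφ.2.2.2
    · rw [Complex.neg_re, Complex.conj_re]; linarith
  · exact near_of_win T hSeq hG hSF hφ (win_axis T hSum hG hP hφ h)
  · exact hpos φ₀ hφ h

end Pool.Agent.N839.VS
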