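import Pool.Agent.N839.VS.Tails

/-!
# VS/A8, part 3: from the window to the kernel
-/

set_option autoImplicit false

namespace Pool.Agent.N839.VS

open Filter Finset Topology Metric
open Pool.Agent.W711.HT Pool.Agent.N561
open scoped Real

theorem nat_le_exp {ε : ℝ} (hε : 0 < ε) : ∀ᶠ N : ℕ in atTop, (N : ℝ) ≤ Real.exp (ε * N) := by
  have h1 : ∀ᶠ N : ℕ in atTop, 2 / ε ^ 2 ≤ (N : ℝ) :=
    tendsto_natCast_atTop_atTop.eventually_ge_atTop _
  filter_upwards [h1] with N hN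
  have h2 := Real.quadratic_le_exp_of_nonneg (x := ε * N) (by positivity)
  have h3 : 2 ≤ ε ^ 2 * N := by
    rw [div_le_iff₀ (by positivity)] at hN
    linarith
  have h4 : (N : ℝ) ≤ (ε * N) ^ 2 / 2 := by
    have h5 : 0 ≤ (N : ℝ) := Nat.cast_nonneg N
    nlinarith
  have h5 : 0 ≤ ε * N := by positivity
  linarith

/-- adapted from `Pool.Agent.W469.HT.Mwk.absorb` (starting file) -/
theorem absorb {W T : ℕ → ℂ} {L κ : ℝ} (hL : 0 < L) (hκ : 0 < κ)
    (hW : Tendsto (fun N : ℕ => Real.log ‖W N‖ / N) atTop (𝓝 L))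
    (hT : ∀ᶠ N : ℕ in atTop, ‖T N‖ ≤ N * Real.exp (N * (L - κ))) :
    Tendsto (fun N : ℕ => Real.log ‖W N + T N‖ / N) atTop (𝓝 L) := by
  have h1 : ∀ᶠ N : ℕ in atTop, max 0 (L - κ / 4) < Real.log ‖W N‖ / N :=
    hW.eventually_const_lt (max_lt hL (by linarith))
  have hbig : ∀ᶠ N : ℕ in atTop, 4 / κ * Real.log 2 ≤ (N : ℝ) :=
    tendsto_natCast_atTop_atTop.eventually_ge_atTop _
  have key : ∀ᶠ N : ℕ in atTop, ‖Real.log ‖W N + T N‖ / N - Real.log ‖W N‖ / N‖ ≤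
      Real.log 2 / N := by
    filter_upwards [h1, hT, nat_le_exp (show 0 < κ / 4 by positivity), hbig,
      eventually_gt_atTop 0] with N h1 h2 h3 h4 h5
    have hN : (0 : ℝ) < N := by exact_mod_cast h5
    have h6 : (N : ℝ) * (L - κ / 4) < Real.log ‖W N‖ := by
      have := (le_max_right _ _).trans_lt h1
      rw [lt_div_iff₀ hN] at this
      linarith
    have h7 : 0 < Real.log ‖W N‖ := by
      have := (le_max_left _ _).trans_lt h1
      rw [lt_div_iff₀ hN] at this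
      linarith
    have h8 : 0 < ‖W N‖ := by
      by_contra hcon
      have : ‖W N‖ = 0 := le_antisymm (not_lt.1 hcon) (norm_nonneg _)
      rw [this, Real.log_zero] at h7
      exact lt_irrefl _ h7
    have h9 : Real.exp (N * (L - κ / 4)) ≤ ‖W N‖ := by
      rw [← Real.exp_log h8]
      exact Real.exp_le_exp.2 h6.le
    have h10 : 2 * ‖T N‖ ≤ ‖W N‖ := by
      have e2 : (2 : ℝ) ≤ Real.exp (κ / 4 * N) := by
        rw [← Real.log_le_iff_le_exp (by norm_num)]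
        rw [div_mul_eq_mul_div, div_le_iff₀ hκ] at h4
        linarith
      calc 2 * ‖T N‖ ≤ Real.exp (κ / 4 * N) * (Real.exp (κ / 4 * N) *
            Real.exp (N * (L - κ))) := by
            have : ‖T N‖ ≤ Real.exp (κ / 4 * N) * Real.exp (N * (L - κ)) :=
              h2.trans (by gcongr)
            gcongr
        _ = Real.exp (N * (L - κ / 2)) := by
            rw [← Real.exp_add, ← Real.exp_add]
            congr 1
            ring
        _ ≤ Real.exp (N * (L - κ / 4)) := by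
            refine Real.exp_le_exp.2 (mul_le_mul_of_nonneg_left ?_ hN.le)
            linarith
        _ ≤ ‖W N‖ := h9
    have h11 : ‖W N‖ / 2 ≤ ‖W N + T N‖ := by
      have := norm_sub_norm_le (W N) (-T N)
      rw [norm_neg, sub_neg_eq_add] at this
      linarith
    have h12 : ‖W N + T N‖ ≤ 2 * ‖W N‖ := by
      have := norm_add_le (W N) (T N)
      have := norm_nonneg (T N)
      linarith
    have h13 : 0 < ‖W N + T N‖ := lt_of_lt_of_le (by positivity) h11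
    rw [← sub_div, norm_div, Real.norm_of_nonneg hN.le]
    gcongr
    rw [Real.norm_eq_abs, abs_le]
    constructor
    · have := Real.log_le_log (by positivity) h11
      rw [Real.log_div h8.ne' two_ne_zero] at this
      linarith
    · have := Real.log_le_log h13 h12
      rw [Real.log_mul two_ne_zero h8.ne'] at this
      linarith
  have h2 : Tendsto (fun N : ℕ => Real.log 2 / (N : ℝ)) atTop (𝓝 0) :=
    tendsto_const_div_atTop_nhds_zero_nat _
  have h3 : Tendsto (fun N : ℕ => Real.log ‖W N + T N‖ / N - Real.log ‖W N‖ / N) atTop (𝓝 0) :=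
    squeeze_zero_norm' key h2
  have h4 := h3.add hW
  simpa using h4

theorem tend_floor {b : ℝ} (hb : 0 < b) :
    Tendsto (fun N : ℕ => ((⌊b * N⌋₊ : ℕ) : ℝ) / N) atTop (𝓝 b) :=
  (tendsto_nat_floor_mul_div_atTop hb.le).comp tendsto_natCast_atTop_atTop

theorem tend_ceil {a : ℝ} (ha : 0 < a) :
    Tendsto (fun N : ℕ => ((⌈a * N⌉₊ : ℕ) : ℝ) / N) atTop (𝓝 a) :=
  (tendsto_nat_ceil_mul_div_atTop ha.le).comp tendsto_natCast_atTop_atTop

/-- from the window to the kernel -/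
theorem core (T : Dat) {a' a b b' b₁ h β L : ℝ} (ha' : 0 < a') (haa : a' < a) (hab : a < b)
    (hbb : b < b') (hb' : b' < 1 / 2) (hh : 0 < h)
    (hβa : 2 * a * Real.log MM + 8 * √a ≤ β) (hb₁ : 1 / 6 ≤ b₁) (hb₁b : b₁ < b)
    (hbM : 4 * Real.cos (π * b₁) ^ 2 ≤ 1 / (2 * MM)) (hβ : 0 < β) (hβL : β < L)
    {p : ℂ × ℂ} (hp : p ∈ PP b' h) {ψ φ : ℕ → ℂ} (hψ : Tendsto ψ atTop (𝓝 p.1))
    (hφ : Tendsto φ atTop (𝓝 p.2)) (hpN : ∀ N, (ψ N, φ N) ∈ PP b' h)
    (hψ2 : ∀ N, |(ψ N).im| ≤ 2) (hφ2 : ∀ N, |(φ N).im| ≤ 2)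
    (hψc : ∀ N, ‖2 * Complex.cos (ψ N) - 2‖ ≤ 1 / (2 * MM))
    (hTb : (TH p.1 p.2 b).re < L)
    (hwin : Tendsto (fun N : ℕ => Real.log ‖∑ d ∈ Ico (⌈a * N⌉₊) (⌊b * N⌋₊),
      Complex.exp (N * qq' T (ψ N) (φ N) N ((d : ℂ) / N))‖ / N) atTop (𝓝 L)) :
    Tendsto (fun N : ℕ => Real.log ‖k0 N (ψ N) (φ N)‖ / N) atTop (𝓝 L) := by
  have hb0 : 0 < b := (ha'.trans haa).trans hab
  -- the term at the end of the window
  obtain ⟨κ, hκ, hκ1, hκ2⟩ : ∃ κ : ℝ, 0 < κ ∧ κ ≤ L - β ∧ (TH p.1 p.2 b).re < L - κ := by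
    refine ⟨min (L - β) ((L - (TH p.1 p.2 b).re) / 2), lt_min (by linarith) (by linarith),
      min_le_left _ _, ?_⟩
    have := min_le_right (L - β) ((L - (TH p.1 p.2 b).re) / 2)
    linarith
  have hbmem : ((b : ℝ) : ℂ) ∈ OR a' b' h := by
    refine ⟨?_, ?_, ?_⟩
    · rw [Complex.ofReal_re]; linarith
    · rw [Complex.ofReal_re]; linarith
    · rw [Complex.ofReal_im, abs_zero]; exact hh
  have hBt : Tendsto (fun N : ℕ => ((⌊b * N⌋₊ : ℕ) : ℂ) / N) atTop (𝓝 (b : ℂ)) := by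
    have h1 := (Complex.continuous_ofReal.tendsto b).comp (tend_floor hb0)
    refine h1.congr fun N => ?_
    simp
  have hBmem : ∀ᶠ N : ℕ in atTop, ((⌊b * N⌋₊ : ℕ) : ℂ) / N ∈ OR a' b' h :=
    hBt.eventually_mem ((isOpen_OR a' b' h).mem_nhds hbmem)
  have hqB : Tendsto (fun N : ℕ => qq' T (ψ N) (φ N) N (((⌊b * N⌋₊ : ℕ) : ℂ) / N)) atTop
      (𝓝 (TH p.1 p.2 b)) := by
    have h1 := ((qq_unif T ha' hb' hh hp hψ hφ).mono
      (OR_sub_CR a' b' h)).tendstoLocallyUniformlyOn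
    refine h1.tendsto_comp ?_ hbmem ?_
    · exact (TH_diff T ha' hb' hh hp).continuousOn _ hbmem
    · exact tendsto_nhdsWithin_iff.2 ⟨hBt, hBmem⟩
  have hqB' : ∀ᶠ N : ℕ in atTop,
      (qq' T (ψ N) (φ N) N (((⌊b * N⌋₊ : ℕ) : ℂ) / N)).re < L - κ :=
    ((Complex.continuous_re.tendsto _).comp hqB).eventually_lt_const hκ2
  have hlarge : ∀ᶠ N : ℕ in atTop, 1 / (2 * (b - b₁)) ≤ (N : ℝ) :=
    tendsto_natCast_atTop_atTop.eventually_ge_atTop _
  have hAmem : ∀ᶠ N : ℕ in atTop, 1 / (b' - b) ≤ (N : ℝ) :=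
    tendsto_natCast_atTop_atTop.eventually_ge_atTop _
  -- the terms
  set W : ℕ → ℂ := fun N => ∑ d ∈ Ico (⌈a * N⌉₊) (⌊b * N⌋₊),
      Complex.exp (N * qq' T (ψ N) (φ N) N ((d : ℂ) / N)) with hW
  have hWeq : ∀ N : ℕ, 1 ≤ N → W N = ∑ d ∈ Ico (⌈a * N⌉₊) (⌊b * N⌋₊),
      Rp N d (ψ N) * Rp N d (φ N) / (Sd N d : ℂ) ^ 4 := by
    intro N hN
    have hN' : (0 : ℝ) < N := by exact_mod_cast hN
    rw [hW]
    refine Finset.sum_congr rfl fun d hd => ?_
    rw [Finset.mem_Ico] at hd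
    have g1 : a * N ≤ d := Nat.le_of_ceil_le hd.1
    have g2 : (d : ℝ) < b * N := Nat.lt_of_lt_floor hd.2
    refine (term_eq T ha' hb' hh (hpN N) hN ?_).symm
    rw [show ((d : ℂ) / N) = (((d : ℝ) / N : ℝ) : ℂ) by push_cast; rfl]
    refine ⟨?_, ?_, ?_⟩
    · rw [Complex.ofReal_re, le_div_iff₀ hN']
      nlinarith
    · rw [Complex.ofReal_re, div_le_iff₀ hN']
      nlinarith
    · rw [Complex.ofReal_im, abs_zero]; exact hh.le
  have hsub : ∀ N : ℕ, Ico (⌈a * N⌉₊) (⌊b * N⌋₊) ⊆ range ((N + 1) / 2) := by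
    intro N d hd
    rw [Finset.mem_Ico] at hd
    rw [Finset.mem_range]
    have g2 : (d : ℝ) < b * N := Nat.lt_of_lt_floor hd.2
    have g3 : (2 * d : ℝ) < N + 1 := by
      have : (0 : ℝ) ≤ N := Nat.cast_nonneg N
      nlinarith
    have g4 : (2 * d : ℝ) < N := by
      have hN0 : (0 : ℝ) < N := by
        by_contra hcon
        have h3 : (N : ℝ) = 0 := le_antisymm (not_lt.1 hcon) (Nat.cast_nonneg N)
        rw [h3, mul_zero] at g2
        exact absurd g2 (not_lt.2 (Nat.cast_nonneg d))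
      nlinarith
    have g5 : 2 * d < N := by exact_mod_cast g4
    omega
  set S : ℕ → ℂ := fun N => ∑ d ∈ range ((N + 1) / 2) \ Ico (⌈a * N⌉₊) (⌊b * N⌋₊),
      Rp N d (ψ N) * Rp N d (φ N) / (Sd N d : ℂ) ^ 4 with hS
  have hk : ∀ N : ℕ, 1 ≤ N → k0 N (ψ N) (φ N) = W N + S N := by
    intro N hN
    rw [hWeq N hN, hS, k0, ← Finset.sum_sdiff (hsub N)]
    ring
  have hSb : ∀ᶠ N : ℕ in atTop, ‖S N‖ ≤ N * Real.exp (N * (L - κ)) := by
    filter_upwards [hqB', hBmem, hlarge, eventually_ge_atTop 1] with N h1 h2 h3 hN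
    have hN' : (0 : ℝ) < N := by exact_mod_cast hN
    have hbound : ∀ d ∈ range ((N + 1) / 2) \ Ico (⌈a * N⌉₊) (⌊b * N⌋₊),
        ‖Rp N d (ψ N) * Rp N d (φ N) / (Sd N d : ℂ) ^ 4‖ ≤ Real.exp (N * (L - κ)) := by
      intro d hd
      rw [Finset.mem_sdiff, Finset.mem_range, Finset.mem_Ico, not_and_or, not_le, not_lt] at hd
      obtain ⟨hdN, hd⟩ := hd
      have hd2 : 2 * d ≤ N := by omega
      rcases hd with hd | hd
      · have g2 : (d : ℝ) < a * N := Nat.lt_ceil.1 hd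
        refine (term_low (ha'.trans haa) hN hd2 g2.le (hψ2 N) (hφ2 N)).trans ?_
        refine Real.exp_le_exp.2 (mul_le_mul_of_nonneg_left ?_ hN'.le)
        linarith
      · have g2 : b * N < (⌊b * N⌋₊ : ℝ) + 1 := Nat.lt_floor_add_one _
        have g3 : b₁ * N ≤ (⌊b * N⌋₊ : ℝ) + 1 / 2 := by
          have e0 : 0 < b - b₁ := by linarith
          rw [div_le_iff₀ (by positivity)] at h3
          nlinarith
        refine (term_high hb₁ (by linarith) hbM hN hd hd2 g3 (hφ2 N) (hψc N)).trans ?_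
        have e1 := term_eq T ha' hb' hh (hpN N) hN (OR_sub_CR _ _ _ h2)
        simp only at e1
        rw [e1, Complex.norm_exp]
        refine Real.exp_le_exp.2 ?_
        rw [show ((N : ℂ) * qq' T (ψ N) (φ N) N (((⌊b * N⌋₊ : ℕ) : ℂ) / N)).re =
          N * (qq' T (ψ N) (φ N) N (((⌊b * N⌋₊ : ℕ) : ℂ) / N)).re by
            rw [← Complex.ofReal_natCast, Complex.re_ofReal_mul]]
        exact mul_le_mul_of_nonneg_left h1.le hN'.le
    refine (norm_sum_le _ _).trans ((Finset.sum_le_card_nsmul _ _ _ hbound).trans ?_)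
    rw [nsmul_eq_mul]
    have e3 : (((range ((N + 1) / 2) \ Ico (⌈a * N⌉₊) (⌊b * N⌋₊)).card : ℕ) : ℝ) ≤ N := by
      have := Finset.card_le_card (Finset.sdiff_subset
        (s := range ((N + 1) / 2)) (t := Ico (⌈a * N⌉₊) (⌊b * N⌋₊)))
      rw [Finset.card_range] at this
      have h5 : (N + 1) / 2 ≤ N := by omega
      exact_mod_cast this.trans h5
    gcongr
  have hfin := absorb (hβ.trans hβL) hκ hwin hSb
  refine hfin.congr' ?_
  filter_upwards [eventually_ge_atTop 1] with N hN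
  rw [hk N hN]

end Pool.Agent.N839.VS
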