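import Pool.Agent.N561.A.Stm

/-!
# VS/A8, part 1: convergence and continuity of the potential
-/

set_option autoImplicit false

namespace Pool.Agent.N839.VS

open Filter Finset Topology Metric
open Pool.Agent.W711.HT Pool.Agent.N561
open scoped Real

/-- closed rectangle -/
def CR (a b h : ℝ) : Set ℂ := {δ | a ≤ δ.re ∧ δ.re ≤ b ∧ |δ.im| ≤ h}

/-- open rectangle -/
def OR (a b h : ℝ) : Set ℂ := {δ | a < δ.re ∧ δ.re < b ∧ |δ.im| < h}

/-- parameters -/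
def PP (b h : ℝ) : Set (ℂ × ℂ) :=
  {p | 2 * π * b + |p.1.re| < π ∧ 2 * π * h < p.2.im ∧ |p.2.re| < π}

theorem OR_sub_CR (a b h : ℝ) : OR a b h ⊆ CR a b h := fun _ hz => ⟨hz.1.le, hz.2.1.le, hz.2.2.le⟩

theorem isOpen_OR (a b h : ℝ) : IsOpen (OR a b h) := by
  refine (isOpen_lt continuous_const Complex.continuous_re).inter
    ((isOpen_lt Complex.continuous_re continuous_const).inter
    (isOpen_lt Complex.continuous_im.abs continuous_const))

theorem isOpen_PP (b h : ℝ) : IsOpen (PP b h) := by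
  have h1 : IsOpen {p : ℂ × ℂ | 2 * π * b + |p.1.re| < π} :=
    isOpen_lt (continuous_const.add (Complex.continuous_re.comp continuous_fst).abs)
      continuous_const
  have h2 : IsOpen {p : ℂ × ℂ | 2 * π * h < p.2.im} :=
    isOpen_lt continuous_const (Complex.continuous_im.comp continuous_snd)
  have h3 : IsOpen {p : ℂ × ℂ | |p.2.re| < π} :=
    isOpen_lt (Complex.continuous_re.comp continuous_snd).abs continuous_const
  exact h1.inter (h2.inter h3)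

theorem CR_eq (a b h : ℝ) : CR a b h = Set.Icc a b ×ℂ Set.Icc (-h) h := by
  ext z
  rw [Complex.mem_reProdIm, Set.mem_Icc, Set.mem_Icc, ← abs_le]
  exact ⟨fun h => ⟨⟨h.1, h.2.1⟩, h.2.2⟩, fun h => ⟨h.1.1, h.1.2, h.2⟩⟩

theorem isCompact_CR (a b h : ℝ) : IsCompact (CR a b h) := by
  rw [CR_eq]
  exact isCompact_Icc.reProdIm isCompact_Icc

theorem isOpen_DF : IsOpen DF := by
  have h1 : IsOpen {p : ℂ × ℂ | 0 < p.2.im} :=
    isOpen_lt continuous_const (Complex.continuous_im.comp continuous_snd)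
  have h2 : IsOpen {p : ℂ × ℂ | 2 * π * |p.1.im| < p.2.im} :=
    isOpen_lt (continuous_const.mul (Complex.continuous_im.comp continuous_fst).abs)
      (Complex.continuous_im.comp continuous_snd)
  have h3 : IsOpen {p : ℂ × ℂ | 2 * π * |p.1.re| + |p.2.re| < 2 * π} :=
    isOpen_lt ((continuous_const.mul (Complex.continuous_re.comp continuous_fst).abs).add
      (Complex.continuous_re.comp continuous_snd).abs) continuous_const
  exact h1.inter (h2.inter h3)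

theorem isOpen_DA : IsOpen DA :=
  isOpen_lt ((continuous_const.mul (Complex.continuous_re.comp continuous_fst).abs).add
      (Complex.continuous_re.comp continuous_snd).abs) continuous_const

theorem mem_DA {a b h : ℝ} (ha : 0 < a) {δ : ℂ} (hδ : δ ∈ CR a b h) {p : ℂ × ℂ}
    (hp : p ∈ PP b h) : (δ, p.1) ∈ DA := by
  have hπ := Real.pi_pos
  have h1 : |δ.re| ≤ b := by
    rw [abs_of_pos (ha.trans_le hδ.1)]; exact hδ.2.1
  have h2 : 2 * π * |δ.re| ≤ 2 * π * b := by gcongr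
  have h3 := hp.1
  show 2 * π * |δ.re| + |p.1.re| < π
  linarith

theorem mem_DF {a b h : ℝ} (ha : 0 < a) (hb : b < 1 / 2) (hh : 0 < h) {δ : ℂ}
    (hδ : δ ∈ CR a b h) {p : ℂ × ℂ} (hp : p ∈ PP b h) : (δ, p.2) ∈ DF := by
  have hπ := Real.pi_pos
  have h1 : |δ.re| ≤ b := by
    rw [abs_of_pos (ha.trans_le hδ.1)]; exact hδ.2.1
  have h2 : 2 * π * |δ.re| ≤ 2 * π * b := by gcongr
  have h4 : 2 * π * b < 2 * π * (1 / 2) := by gcongr
  have h3 := hp.2.2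
  have h5 : 2 * π * |δ.im| ≤ 2 * π * h := by
    have := hδ.2.2
    gcongr
  have h6 := hp.2.1
  have h7 : 0 < 2 * π * h := by positivity
  refine ⟨?_, ?_, ?_⟩
  · show 0 < p.2.im
    linarith
  · show 2 * π * |δ.im| < p.2.im
    linarith
  · show 2 * π * |δ.re| + |p.2.re| < 2 * π
    linarith

theorem mem_strip {a b h : ℝ} (ha : 0 < a) (hb : b < 1 / 2) {δ : ℂ}
    (hδ : δ ∈ CR a b h) : δ ∈ {δ : ℂ | 0 < δ.re ∧ δ.re < 1} :=
  ⟨ha.trans_le hδ.1, by linarith [hδ.2.1]⟩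

/-- uniform convergence with a converging parameter -/
theorem unif_seq {r : ℕ → ℂ × ℂ → ℂ} {R : ℂ × ℂ → ℂ} {D : Set (ℂ × ℂ)} (hD : IsOpen D)
    (hR : ContinuousOn R D)
    (hr : ∀ K ⊆ D, IsCompact K → TendstoUniformlyOn r R atTop K) {C : Set ℂ} (hC : IsCompact C)
    {φ : ℕ → ℂ} {φ' : ℂ} (hφ : Tendsto φ atTop (𝓝 φ')) (hsub : ∀ δ ∈ C, (δ, φ') ∈ D) :
    TendstoUniformlyOn (fun N δ => r N (δ, φ N)) (fun δ => R (δ, φ')) atTop C := by
  have h1 : ∀ᶠ w in 𝓝 φ', ∀ δ ∈ C, (δ, w) ∈ D := by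
    refine hC.eventually_forall_of_forall_eventually fun δ hδ => ?_
    have h2 : Tendsto (fun z : ℂ × ℂ => (z.2, z.1)) (𝓝 (φ', δ)) (𝓝 (δ, φ')) :=
      (continuous_snd.prodMk continuous_fst).tendsto _
    exact h2.eventually (hD.mem_nhds (hsub δ hδ))
  obtain ⟨ρ, hρ, hb⟩ := Metric.nhds_basis_closedBall.eventually_iff.1 h1
  set K : Set (ℂ × ℂ) := C ×ˢ closedBall φ' ρ with hK
  have hKc : IsCompact K := hC.prod (isCompact_closedBall _ _)
  have hKD : K ⊆ D := fun p hp => hb hp.2 _ hp.1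
  have hu := hr K hKD hKc
  rw [Metric.tendstoUniformlyOn_iff] at hu ⊢
  intro ε hε
  have hUC := hKc.uniformContinuousOn_of_continuous (hR.mono hKD)
  obtain ⟨δ₁, hδ₁, h3⟩ := Metric.uniformContinuousOn_iff.1 hUC (ε / 2) (by positivity)
  have h4 : ∀ᶠ N in atTop, dist (φ N) φ' < min δ₁ ρ :=
    (Metric.tendsto_nhds.1 hφ) _ (lt_min hδ₁ hρ)
  filter_upwards [hu (ε / 2) (by positivity), h4] with N h5 h6 z hz
  have h7 : (z, φ N) ∈ K := ⟨hz, (h6.trans_le (min_le_right _ _)).le⟩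
  have h8 : (z, φ') ∈ K := ⟨hz, mem_closedBall_self hρ.le⟩
  have h9 := h5 _ h7
  have h10 := h3 _ h8 _ h7 (by
    rw [Prod.dist_eq, dist_self, dist_comm]
    exact max_lt hδ₁ (h6.trans_le (min_le_left _ _)))
  calc dist (R (z, φ')) (r N (z, φ N)) ≤ dist (R (z, φ')) (R (z, φ N)) +
        dist (R (z, φ N)) (r N (z, φ N)) := dist_triangle _ _ _
    _ < ε / 2 + ε / 2 := add_lt_add h10 h9
    _ = ε := by ring

theorem cont_of_unif {X : Type} [TopologicalSpace X] [LocallyCompactSpace X] {r : ℕ → X → ℂ}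
    {R : X → ℂ} {D : Set X} (hD : IsOpen D) (hrc : ∀ N : ℕ, 1 ≤ N → ContinuousOn (r N) D)
    (hr : ∀ K ⊆ D, IsCompact K → TendstoUniformlyOn r R atTop K) : ContinuousOn R D := by
  have h := (tendstoLocallyUniformlyOn_iff_forall_isCompact hD).2 hr
  refine h.continuousOn ?_
  exact (Filter.eventually_atTop.2 ⟨1, fun N hN => hrc N hN⟩).frequently

/-- the data of the interpolation -/
structure Dat where
  r₁ : ℕ → ℂ × ℂ → ℂ
  r₂ : ℕ → ℂ × ℂ → ℂ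
  s : ℕ → ℂ → ℂ
  d1 : ∀ N : ℕ, 1 ≤ N → DifferentiableOn ℂ (r₁ N) DF
  e1 : ∀ N d : ℕ, 1 ≤ N → ∀ φ : ℂ, ((d : ℂ) / N, φ) ∈ DF →
    Rp N d φ = Complex.exp (N * r₁ N ((d : ℂ) / N, φ))
  u1 : ∀ K ⊆ DF, IsCompact K → TendstoUniformlyOn r₁ (fun p => RR p.1 p.2) atTop K
  d2 : ∀ N : ℕ, 1 ≤ N → DifferentiableOn ℂ (r₂ N) DA
  d3 : ∀ N : ℕ, 1 ≤ N → DifferentiableOn ℂ (s N) {δ : ℂ | 0 < δ.re ∧ δ.re < 1}
  e2 : ∀ N d : ℕ, 1 ≤ N → ∀ ψ : ℂ, ((d : ℂ) / N, ψ) ∈ DA →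
    Rp N d ψ = Complex.exp (N * r₂ N ((d : ℂ) / N, ψ))
  e3 : ∀ N d : ℕ, 1 ≤ d → d < N → (Sd N d : ℂ) = Complex.exp (N * s N ((d : ℂ) / N))
  u2 : ∀ K ⊆ DA, IsCompact K → TendstoUniformlyOn r₂ (fun p => RR p.1 p.2) atTop K
  u3 : ∀ K ⊆ {δ : ℂ | 0 < δ.re ∧ δ.re < 1}, IsCompact K →
    TendstoUniformlyOn s (fun δ => LS (π * δ) / π) atTop K

theorem exists_Dat (hF : S_FOU) (hL : S_LAPL) : Nonempty Dat := by
  obtain ⟨r₁, a1, a2, a3⟩ := hF
  obtain ⟨r₂, s, b1, b2, b3, b4, b5, b6⟩ := hL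
  exact ⟨⟨r₁, r₂, s, a1, a2, a3, b1, b2, b3, b4, b5, b6⟩⟩

theorem isOpen_strip : IsOpen {δ : ℂ | 0 < δ.re ∧ δ.re < 1} :=
  (isOpen_lt continuous_const Complex.continuous_re).inter
    (isOpen_lt Complex.continuous_re continuous_const)

variable (T : Dat)

include T in
theorem cont_DF : ContinuousOn (fun p : ℂ × ℂ => RR p.1 p.2) DF :=
  cont_of_unif isOpen_DF (fun N hN => (T.d1 N hN).continuousOn) T.u1

include T in
theorem cont_DA : ContinuousOn (fun p : ℂ × ℂ => RR p.1 p.2) DA :=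
  cont_of_unif isOpen_DA (fun N hN => (T.d2 N hN).continuousOn) T.u2

include T in
theorem cont_S : ContinuousOn (fun δ : ℂ => LS (π * δ) / π) {δ : ℂ | 0 < δ.re ∧ δ.re < 1} :=
  cont_of_unif isOpen_strip (fun N hN => (T.d3 N hN).continuousOn) T.u3

/-- the functions of the sum -/
noncomputable def qq' (ψ φ : ℂ) (N : ℕ) (δ : ℂ) : ℂ :=
  T.r₂ N (δ, ψ) + T.r₁ N (δ, φ) - 4 * T.s N δ

theorem qq_diff {a b h : ℝ} (ha : 0 < a) (hb : b < 1 / 2) (hh : 0 < h) {p : ℂ × ℂ}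
    (hp : p ∈ PP b h) {N : ℕ} (hN : 1 ≤ N) :
    DifferentiableOn ℂ (qq' T p.1 p.2 N) (CR a b h) := by
  unfold qq'
  have h1 : DifferentiableOn ℂ (fun δ : ℂ => T.r₂ N (δ, p.1)) (CR a b h) :=
    (T.d2 N hN).comp (by fun_prop) fun δ hδ => mem_DA ha hδ hp
  have h2 : DifferentiableOn ℂ (fun δ : ℂ => T.r₁ N (δ, p.2)) (CR a b h) :=
    (T.d1 N hN).comp (by fun_prop) fun δ hδ => mem_DF ha hb hh hδ hp
  have h3 : DifferentiableOn ℂ (fun δ : ℂ => T.s N δ) (CR a b h) :=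
    (T.d3 N hN).mono fun δ hδ => mem_strip ha hb hδ
  exact (h1.add h2).sub (h3.const_mul 4)

theorem qq_unif {a b h : ℝ} (ha : 0 < a) (hb : b < 1 / 2) (hh : 0 < h) {p : ℂ × ℂ}
    (hp : p ∈ PP b h) {ψ φ : ℕ → ℂ} (hψ : Tendsto ψ atTop (𝓝 p.1))
    (hφ : Tendsto φ atTop (𝓝 p.2)) :
    TendstoUniformlyOn (fun N => qq' T (ψ N) (φ N) N) (TH p.1 p.2) atTop (CR a b h) := by
  have h1 := unif_seq isOpen_DA (cont_DA T) T.u2 (isCompact_CR a b h) hψ
    fun δ hδ => mem_DA ha hδ hp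
  have h2 := unif_seq isOpen_DF (cont_DF T) T.u1 (isCompact_CR a b h) hφ
    fun δ hδ => mem_DF ha hb hh hδ hp
  have h3 := T.u3 (CR a b h) (fun δ hδ => mem_strip ha hb hδ) (isCompact_CR a b h)
  have h4 : TendstoUniformlyOn (fun N δ => 4 * T.s N δ) (fun δ => 4 * (LS (π * δ) / π)) atTop
      (CR a b h) := by
    have := (uniformContinuous_const_smul (4 : ℂ)).comp_tendstoUniformlyOn h3
    simpa [Function.comp_def] using this
  exact (h1.add h2).sub h4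

include T in
theorem TH_diff {a b h : ℝ} (ha : 0 < a) (hb : b < 1 / 2) (hh : 0 < h) {p : ℂ × ℂ}
    (hp : p ∈ PP b h) : DifferentiableOn ℂ (TH p.1 p.2) (OR a b h) := by
  have h1 := (qq_unif T ha hb hh hp (ψ := fun _ => p.1) (φ := fun _ => p.2) tendsto_const_nhds
    tendsto_const_nhds).mono (OR_sub_CR a b h)
  refine h1.tendstoLocallyUniformlyOn.differentiableOn ?_ (isOpen_OR a b h)
  exact Filter.eventually_atTop.2 ⟨1, fun N hN =>
    (qq_diff T ha hb hh hp hN).mono (OR_sub_CR a b h)⟩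

include T in
/-- joint continuity -/
theorem TH_cont {a b h : ℝ} (ha : 0 < a) (hb : b < 1 / 2) (hh : 0 < h) {p : ℂ × ℂ}
    (hp : p ∈ PP b h) {δ : ℂ} (hδ : δ ∈ CR a b h) :
    ContinuousAt (fun x : (ℂ × ℂ) × ℂ => TH x.1.1 x.1.2 x.2) (p, δ) := by
  unfold TH
  have h1 : ContinuousAt (fun x : (ℂ × ℂ) × ℂ => RR x.2 x.1.1) (p, δ) := by
    have e1 := (cont_DA T).continuousAt (isOpen_DA.mem_nhds (mem_DA ha hδ hp))
    exact ContinuousAt.comp' (g := fun p : ℂ × ℂ => RR p.1 p.2)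
      (f := fun x : (ℂ × ℂ) × ℂ => (x.2, x.1.1)) e1 (by fun_prop)
  have h2 : ContinuousAt (fun x : (ℂ × ℂ) × ℂ => RR x.2 x.1.2) (p, δ) := by
    have e1 := (cont_DF T).continuousAt (isOpen_DF.mem_nhds (mem_DF ha hb hh hδ hp))
    exact ContinuousAt.comp' (g := fun p : ℂ × ℂ => RR p.1 p.2)
      (f := fun x : (ℂ × ℂ) × ℂ => (x.2, x.1.2)) e1 (by fun_prop)
  have h3 : ContinuousAt (fun x : (ℂ × ℂ) × ℂ => LS (π * x.2) / π) (p, δ) := by
    have e1 := (cont_S T).continuousAt (isOpen_strip.mem_nhds (mem_strip ha hb hδ))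
    exact ContinuousAt.comp' (g := fun δ : ℂ => LS (π * δ) / π)
      (f := fun x : (ℂ × ℂ) × ℂ => x.2) e1 (by fun_prop)
  exact (h1.add h2).sub (continuousAt_const.mul h3)

include T in
theorem TH_unif {a b h : ℝ} (ha : 0 < a) (hb : b < 1 / 2) (hh : 0 < h) {p : ℂ × ℂ}
    (hp : p ∈ PP b h) :
    TendstoUniformlyOn (fun q : ℂ × ℂ => TH q.1 q.2) (TH p.1 p.2) (𝓝 p) (OR a b h) := by
  rw [Metric.tendstoUniformlyOn_iff]
  intro ε hε
  have h1 : ∀ᶠ q in 𝓝 p, ∀ δ ∈ CR a b h, dist (TH p.1 p.2 δ) (TH q.1 q.2 δ) < ε := by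
    refine (isCompact_CR a b h).eventually_forall_of_forall_eventually fun δ hδ => ?_
    have c1 := TH_cont T ha hb hh hp hδ
    have c2 : ContinuousAt (fun x : (ℂ × ℂ) × ℂ => TH p.1 p.2 x.2) (p, δ) :=
      ContinuousAt.comp' (g := fun x : (ℂ × ℂ) × ℂ => TH x.1.1 x.1.2 x.2)
        (f := fun x : (ℂ × ℂ) × ℂ => (p, x.2)) c1 (by fun_prop)
    have c3 : ContinuousAt (fun x : (ℂ × ℂ) × ℂ => dist (TH p.1 p.2 x.2)
        (TH x.1.1 x.1.2 x.2)) (p, δ) := c2.dist c1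
    refine c3.eventually_lt_const ?_
    simpa using hε
  filter_upwards [h1] with q hq δ hδ
  exact hq δ (OR_sub_CR a b h hδ)

/-- the terms of the sum -/
theorem term_eq {a b h : ℝ} (ha : 0 < a) (hb : b < 1 / 2) (hh : 0 < h) {p : ℂ × ℂ}
    (hp : p ∈ PP b h) {N d : ℕ} (hN : 1 ≤ N) (hd : ((d : ℂ) / N) ∈ CR a b h) :
    Rp N d p.1 * Rp N d p.2 / (Sd N d : ℂ) ^ 4 =
      Complex.exp (N * qq' T p.1 p.2 N ((d : ℂ) / N)) := by
  have hN' : (0 : ℝ) < N := by exact_mod_cast hN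
  have hre : ((d : ℂ) / N).re = (d : ℝ) / N := by
    rw [show ((d : ℂ) / N) = (((d : ℝ) / N : ℝ) : ℂ) by push_cast; rfl, Complex.ofReal_re]
  have hd1 : 1 ≤ d := by
    have h1 := ha.trans_le hd.1
    rw [hre] at h1
    have h2 : (0 : ℝ) < d := by
      by_contra hcon
      have h3 : (d : ℝ) = 0 := le_antisymm (not_lt.1 hcon) (Nat.cast_nonneg d)
      rw [h3, zero_div] at h1
      exact lt_irrefl _ h1
    exact_mod_cast h2
  have hd2 : d < N := by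
    have h1 := hd.2.1
    rw [hre, div_le_iff₀ hN'] at h1
    have h2 : (d : ℝ) < N := by nlinarith
    exact_mod_cast h2
  rw [T.e2 N d hN p.1 (mem_DA ha hd hp), T.e1 N d hN p.2 (mem_DF ha hb hh hd hp),
    T.e3 N d hd1 hd2, ← Complex.exp_add, ← Complex.exp_nat_mul, ← Complex.exp_sub]
  unfold qq'
  congr 1
  push_cast
  ring

end Pool.Agent.N839.VS
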