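import Pool.Agent.N839.VS.Base

/-!
# VS/A8, part 2: the terms outside the window
-/

set_option autoImplicit false

namespace Pool.Agent.N839.VS

open Filter Finset Topology Metric
open Pool.Agent.W711.HT Pool.Agent.N561
open scoped Real

/-- bound of a factor of `R_d` -/
noncomputable def MM : ℝ := 2 * Real.exp 2 + 2

theorem MM_pos : 0 < MM := by unfold MM; positivity

theorem one_le_MM : 1 ≤ MM := by
  unfold MM
  have := Real.exp_pos 2
  linarith

theorem norm_cos_le {z : ℂ} {t : ℝ} (h : |z.im| ≤ t) : ‖Complex.cos z‖ ≤ Real.exp t := by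
  have h1 : Complex.cos z = (Complex.exp (z * Complex.I) + Complex.exp (-z * Complex.I)) / 2 := rfl
  rw [h1, norm_div]
  have h2 : ‖Complex.exp (z * Complex.I)‖ ≤ Real.exp t := by
    rw [Complex.norm_exp]
    refine Real.exp_le_exp.2 ?_
    have : (z * Complex.I).re = -z.im := by simp
    rw [this]
    exact (neg_le_abs _).trans h
  have h3 : ‖Complex.exp (-z * Complex.I)‖ ≤ Real.exp t := by
    rw [Complex.norm_exp]
    refine Real.exp_le_exp.2 ?_
    have : (-z * Complex.I).re = z.im := by simp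
    rw [this]
    exact (le_abs_self _).trans h
  have h4 : ‖(2 : ℂ)‖ = 2 := by norm_num
  rw [h4, div_le_iff₀ (by norm_num)]
  refine (norm_add_le _ _).trans ?_
  linarith

theorem factor_le {z : ℂ} (h : |z.im| ≤ 2) (x : ℝ) :
    ‖2 * Complex.cos z + 2 * (Real.cos x : ℂ)‖ ≤ MM := by
  refine (norm_add_le _ _).trans ?_
  rw [norm_mul, norm_mul, Complex.norm_real, Real.norm_eq_abs]
  have h1 := norm_cos_le h
  have h2 := Real.abs_cos_le_one x
  have h4 : ‖(2 : ℂ)‖ = 2 := by norm_num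
  rw [h4]
  unfold MM
  linarith

theorem Rp_le {z : ℂ} (h : |z.im| ≤ 2) (N d : ℕ) : ‖Rp N d z‖ ≤ MM ^ d := by
  unfold Rp
  rw [norm_prod]
  calc ∏ j ∈ range d, ‖2 * Complex.cos z + 2 * (Real.cos (phi N j) : ℂ)‖ ≤
        ∏ j ∈ range d, MM := Finset.prod_le_prod (fun _ _ => norm_nonneg _)
          fun j _ => factor_le h _
    _ = MM ^ d := by simp

theorem Sd_succ (N d : ℕ) : Sd N (d + 1) = Sd N d * (2 * Real.sin (π * (d + 1) / N)) := by
  unfold Sd
  rw [Finset.prod_range_succ]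

theorem Rp_succ (N d : ℕ) (z : ℂ) :
    Rp N (d + 1) z = Rp N d z * (2 * Complex.cos z + 2 * (Real.cos (phi N d) : ℂ)) := by
  unfold Rp
  rw [Finset.prod_range_succ]

theorem Sd_low {N : ℕ} (hN : 1 ≤ N) (d : ℕ) (h : 2 * d ≤ N) :
    Real.exp (-(2 * √(N * d))) ≤ Sd N d := by
  have hN' : (0 : ℝ) < N := by exact_mod_cast hN
  induction d with
  | zero =>
    unfold Sd
    simp
  | succ d ih =>
    have ih := ih (by omega)
    rw [Sd_succ]
    have h0 : ((d : ℝ) + 1) * 2 ≤ N := by exact_mod_cast (by omega : (d + 1) * 2 ≤ N)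
    have h1 : 4 * ((d : ℝ) + 1) / N ≤ 2 * Real.sin (π * (d + 1) / N) := by
      have h2 := Real.mul_le_sin (x := π * (d + 1) / N) (by positivity) (by
        rw [div_le_div_iff₀ hN' (by norm_num)]
        have := Real.pi_pos
        nlinarith)
      have h3 : 2 / π * (π * (d + 1) / N) = 2 * (d + 1) / N := by
        field_simp
      rw [h3] at h2
      calc 4 * ((d : ℝ) + 1) / N = 2 * (2 * (d + 1) / N) := by ring
        _ ≤ _ := by gcongr
    have h4 : Real.exp (-(2 * √(N * ((d : ℝ) + 1))) + 2 * √(N * d)) ≤ 4 * ((d : ℝ) + 1) / N := by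
      set A : ℝ := √(N * ((d : ℝ) + 1)) with hA
      set B : ℝ := √(N * (d : ℝ)) with hB
      have hA0 : 0 < A := by rw [hA]; positivity
      have hA2 : A ^ 2 = N * ((d : ℝ) + 1) := Real.sq_sqrt (by positivity)
      have hB2 : B ^ 2 = N * (d : ℝ) := Real.sq_sqrt (by positivity)
      have hB0 : 0 ≤ B := Real.sqrt_nonneg _
      have hBA : B ≤ A := Real.sqrt_le_sqrt (by gcongr; linarith)
      have e1 : (A - B) * (A + B) = N := by ring_nf; rw [hA2, hB2]; ring
      have e2 : (N : ℝ) ≤ (A - B) * (2 * A) := by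
        rw [← e1]
        have : 0 ≤ A - B := by linarith
        gcongr
        linarith
      -- `v = N / (2 A)`
      have e3 : (N : ℝ) / (2 * A) ≤ A - B := by
        rw [div_le_iff₀ (by positivity)]
        exact e2
      set v : ℝ := (N : ℝ) / (2 * A) with hv
      have hv0 : 0 < v := by positivity
      have e4 : 4 * ((d : ℝ) + 1) / N = 1 / v ^ 2 := by
        rw [hv, div_pow, mul_pow, hA2]
        field_simp
        norm_num
      rw [e4, le_div_iff₀ (by positivity)]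
      have e5 : v ≤ Real.exp v := by
        have := Real.add_one_le_exp v
        linarith
      have e6 : v ^ 2 ≤ Real.exp (2 * v) := by
        rw [show Real.exp (2 * v) = Real.exp v ^ 2 by rw [← Real.exp_nat_mul]; norm_num]
        gcongr
      calc Real.exp (-(2 * A) + 2 * B) * v ^ 2 ≤ Real.exp (-(2 * v)) * Real.exp (2 * v) := by
            gcongr
            linarith
        _ = 1 := by rw [← Real.exp_add]; simp
    have hS0 : 0 ≤ Sd N d := (Real.exp_pos _).le.trans ih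
    push_cast
    calc Real.exp (-(2 * √(N * ((d : ℝ) + 1)))) = Real.exp (-(2 * √(N * d))) *
          Real.exp (-(2 * √(N * ((d : ℝ) + 1))) + 2 * √(N * d)) := by
          rw [← Real.exp_add]
          congr 1
          ring
      _ ≤ Sd N d * (4 * ((d : ℝ) + 1) / N) := by gcongr
      _ ≤ Sd N d * (2 * Real.sin (π * (d + 1) / N)) := by gcongr

/-- the terms below the window -/
theorem term_low {a : ℝ} (ha : 0 < a) {N d : ℕ} (hN : 1 ≤ N) (hd : 2 * d ≤ N)
    (hda : (d : ℝ) ≤ a * N) {ψ φ : ℂ} (hψ : |ψ.im| ≤ 2) (hφ : |φ.im| ≤ 2) :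
    ‖Rp N d ψ * Rp N d φ / (Sd N d : ℂ) ^ 4‖ ≤
      Real.exp (N * (2 * a * Real.log MM + 8 * √a)) := by
  have hN' : (0 : ℝ) < N := by exact_mod_cast hN
  have hS := Sd_low hN d hd
  have hS0 : 0 < Sd N d := (Real.exp_pos _).trans_le hS
  rw [norm_div, norm_mul, norm_pow, Complex.norm_real, Real.norm_of_nonneg hS0.le,
    div_le_iff₀ (by positivity)]
  have h1 : MM ^ d ≤ Real.exp (a * N * Real.log MM) := by
    rw [show MM ^ d = Real.exp (d * Real.log MM) by
      rw [Real.exp_nat_mul, Real.exp_log MM_pos]]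
    refine Real.exp_le_exp.2 ?_
    have := Real.log_nonneg one_le_MM
    gcongr
  have h2 : √((N : ℝ) * d) ≤ N * √a := by
    rw [show (N : ℝ) * √a = √(N * (a * N)) by
      rw [show (N : ℝ) * (a * N) = a * N ^ 2 by ring, Real.sqrt_mul ha.le,
        Real.sqrt_sq hN'.le]
      ring]
    exact Real.sqrt_le_sqrt (by gcongr)
  have h3 : Real.exp (-(2 * (N * √a))) ≤ Sd N d :=
    (Real.exp_le_exp.2 (by linarith)).trans hS
  have h4 : Real.exp (-(2 * (N * √a))) ^ 4 ≤ Sd N d ^ 4 := by gcongr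
  calc ‖Rp N d ψ‖ * ‖Rp N d φ‖ ≤ MM ^ d * MM ^ d := by
        gcongr
        · have := MM_pos; positivity
        · exact Rp_le hψ N d
        · exact Rp_le hφ N d
    _ ≤ Real.exp (a * N * Real.log MM) * Real.exp (a * N * Real.log MM) := by
        have := MM_pos
        gcongr
    _ = Real.exp (N * (2 * a * Real.log MM + 8 * √a)) * Real.exp (-(2 * (N * √a))) ^ 4 := by
        rw [← Real.exp_nat_mul, ← Real.exp_add, ← Real.exp_add]
        congr 1
        push_cast
        ring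
    _ ≤ _ := by gcongr

theorem half_sin {x : ℝ} (h1 : π / 6 ≤ x) (h2 : x ≤ π / 2) : 1 ≤ 2 * Real.sin x := by
  have h3 : Real.sin (π / 6) ≤ Real.sin x :=
    Real.sin_le_sin_of_le_of_le_pi_div_two (by linarith [Real.pi_pos]) h2 h1
  rw [Real.sin_pi_div_six] at h3
  linarith

/-- one step above the window -/
theorem ratio_le {b : ℝ} (hb : 1 / 6 ≤ b) (hb2 : b < 1 / 2)
    (hbM : 4 * Real.cos (π * b) ^ 2 ≤ 1 / (2 * MM)) {N d : ℕ} (hN : 1 ≤ N)
    (hd : 2 * (d + 1) ≤ N) (hdb : b * N ≤ d + 1 / 2) {ψ φ : ℂ}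
    (hφ : |φ.im| ≤ 2) (hψ2 : ‖2 * Complex.cos ψ - 2‖ ≤ 1 / (2 * MM)) :
    ‖Rp N (d + 1) ψ * Rp N (d + 1) φ / (Sd N (d + 1) : ℂ) ^ 4‖ ≤
      ‖Rp N d ψ * Rp N d φ / (Sd N d : ℂ) ^ 4‖ := by
  have hN' : (0 : ℝ) < N := by exact_mod_cast hN
  have hπ := Real.pi_pos
  have hM := MM_pos
  have hd' : ((d : ℝ) + 1) * 2 ≤ N := by exact_mod_cast (by omega : (d + 1) * 2 ≤ N)
  have hs : 1 ≤ 2 * Real.sin (π * (d + 1) / N) := by
    refine half_sin ?_ ?_
    · rw [le_div_iff₀ hN']
      have : (N : ℝ) / 6 ≤ d + 1 := by nlinarith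
      nlinarith
    · rw [div_le_div_iff₀ hN' (by norm_num)]
      nlinarith
  have hph : 2 + 2 * Real.cos (phi N d) ≤ 1 / (2 * MM) := by
    refine le_trans ?_ hbM
    have e1 : phi N d = 2 * (π * (2 * d + 1) / (2 * N)) := by
      unfold phi
      field_simp
    rw [e1, Real.cos_two_mul]
    have e2 : Real.cos (π * (2 * d + 1) / (2 * N)) ≤ Real.cos (π * b) := by
      refine Real.cos_le_cos_of_nonneg_of_le_pi (by positivity) ?_ ?_
      · rw [div_le_iff₀ (by positivity)]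
        nlinarith
      · rw [le_div_iff₀ (by positivity)]
        nlinarith
    have e3 : 0 ≤ Real.cos (π * (2 * d + 1) / (2 * N)) := by
      refine Real.cos_nonneg_of_neg_pi_div_two_le_of_le ?_ ?_
      · have : 0 ≤ π * (2 * d + 1) / (2 * N) := by positivity
        linarith
      · rw [div_le_div_iff₀ (by positivity) (by norm_num)]
        nlinarith
    nlinarith
  have hph0 : 0 ≤ 2 + 2 * Real.cos (phi N d) := by
    have := Real.neg_one_le_cos (phi N d)
    linarith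
  have hf : ‖2 * Complex.cos ψ + 2 * (Real.cos (phi N d) : ℂ)‖ ≤ 1 / MM := by
    have e1 : 2 * Complex.cos ψ + 2 * (Real.cos (phi N d) : ℂ) =
        (2 * Complex.cos ψ - 2) + ((2 + 2 * Real.cos (phi N d) : ℝ) : ℂ) := by
      push_cast
      ring
    rw [e1]
    refine (norm_add_le _ _).trans ?_
    rw [Complex.norm_real, Real.norm_of_nonneg hph0]
    have : 1 / (2 * MM) + 1 / (2 * MM) = 1 / MM := by field_simp; norm_num
    linarith
  have hf2 := factor_le hφ (phi N d)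
  rw [Rp_succ, Rp_succ, Sd_succ]
  have e2 : Rp N d ψ * (2 * Complex.cos ψ + 2 * (Real.cos (phi N d) : ℂ)) *
      (Rp N d φ * (2 * Complex.cos φ + 2 * (Real.cos (phi N d) : ℂ))) /
      ((Sd N d * (2 * Real.sin (π * (d + 1) / N)) : ℝ) : ℂ) ^ 4 =
      (Rp N d ψ * Rp N d φ / (Sd N d : ℂ) ^ 4) *
      ((2 * Complex.cos ψ + 2 * (Real.cos (phi N d) : ℂ)) *
      (2 * Complex.cos φ + 2 * (Real.cos (phi N d) : ℂ)) /
      ((2 * Real.sin (π * (d + 1) / N) : ℝ) : ℂ) ^ 4) := by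
    rw [Complex.ofReal_mul, mul_pow, div_mul_div_comm]
    congr 1
    ring
  rw [e2, norm_mul]
  refine mul_le_of_le_one_right (norm_nonneg _) ?_
  rw [norm_div, norm_mul, norm_pow, Complex.norm_real, Real.norm_of_nonneg (by linarith)]
  refine div_le_one_of_le₀ ?_ (by positivity)
  calc ‖2 * Complex.cos ψ + 2 * (Real.cos (phi N d) : ℂ)‖ *
        ‖2 * Complex.cos φ + 2 * (Real.cos (phi N d) : ℂ)‖ ≤ 1 / MM * MM := by gcongr
    _ = 1 := by field_simp
    _ ≤ _ := one_le_pow₀ hs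

/-- the terms above the window -/
theorem term_high {b : ℝ} (hb : 1 / 6 ≤ b) (hb2 : b < 1 / 2)
    (hbM : 4 * Real.cos (π * b) ^ 2 ≤ 1 / (2 * MM)) {N B d : ℕ} (hN : 1 ≤ N)
    (hBd : B ≤ d) (hd : 2 * d ≤ N) (hdb : b * N ≤ B + 1 / 2) {ψ φ : ℂ}
    (hφ : |φ.im| ≤ 2) (hψ2 : ‖2 * Complex.cos ψ - 2‖ ≤ 1 / (2 * MM)) :
    ‖Rp N d ψ * Rp N d φ / (Sd N d : ℂ) ^ 4‖ ≤ ‖Rp N B ψ * Rp N B φ / (Sd N B : ℂ) ^ 4‖ := by
  induction d, hBd using Nat.le_induction with
  | base => exact le_rfl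
  | succ d hBd ih =>
    refine (ratio_le hb hb2 hbM hN hd ?_ hφ hψ2).trans (ih (by omega))
    have : (B : ℝ) ≤ d := by exact_mod_cast hBd
    linarith

/-- the choice of the window -/
theorem exists_ab {β : ℝ} (hβ : 0 < β) : ∃ a₁ b₁ : ℝ, 0 < a₁ ∧ a₁ < 1 / 6 ∧ 1 / 3 < b₁ ∧
    b₁ < 1 / 2 ∧ (∀ a : ℝ, 0 < a → a ≤ a₁ → 2 * a * Real.log MM + 8 * √a ≤ β) ∧
    4 * Real.cos (π * b₁) ^ 2 ≤ 1 / (2 * MM) := by
  have h1 : Tendsto (fun a : ℝ => 2 * a * Real.log MM + 8 * √a) (𝓝 0) (𝓝 0) := by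
    have : ContinuousAt (fun a : ℝ => 2 * a * Real.log MM + 8 * √a) 0 := by fun_prop
    simpa [ContinuousAt] using this
  obtain ⟨r, hr, h2⟩ := Metric.eventually_nhds_iff.1 (h1.eventually_le_const hβ)
  have h3 : Tendsto (fun b : ℝ => 4 * Real.cos (π * b) ^ 2) (𝓝 (1 / 2)) (𝓝 0) := by
    have : ContinuousAt (fun b : ℝ => 4 * Real.cos (π * b) ^ 2) (1 / 2) := by fun_prop
    have e : 4 * Real.cos (π * (1 / 2)) ^ 2 = 0 := by
      rw [mul_one_div, Real.cos_pi_div_two]
      norm_num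
    rw [ContinuousAt, e] at this
    exact this
  have hM := MM_pos
  obtain ⟨r', hr', h4⟩ := Metric.eventually_nhds_iff.1
    (h3.eventually_le_const (show (0 : ℝ) < 1 / (2 * MM) by positivity))
  refine ⟨min (r / 2) (1 / 7), max (1 / 2 - r' / 2) (2 / 5), by positivity, ?_, ?_, ?_, ?_, ?_⟩
  · exact (min_le_right _ _).trans_lt (by norm_num)
  · exact lt_of_lt_of_le (by norm_num) (le_max_right _ _)
  · exact max_lt (by linarith) (by norm_num)
  · intro a ha ha2
    refine h2 ?_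
    rw [dist_zero_right, Real.norm_of_nonneg ha.le]
    have := ha2.trans (min_le_left _ _)
    linarith
  · refine h4 ?_
    rw [Real.dist_eq, abs_lt]
    constructor
    · have := le_max_left (1 / 2 - r' / 2) (2 / 5)
      linarith
    · have : max (1 / 2 - r' / 2) (2 / 5) < 1 / 2 := max_lt (by linarith) (by norm_num)
      linarith

end Pool.Agent.N839.VS
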