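import Pool.Agent.N839.VS.Core
import Pool.Agent.N839.VS.Sym

/-!
# VS/A8, part 5: the window
-/

set_option autoImplicit false

namespace Pool.Agent.N839.VS

open Filter Finset Topology Metric
open Pool.Agent.W711.HT Pool.Agent.N561
open scoped Real

/-- the window, for all large windows and all parameters near `(0, φ₀)` -/
def Win (T : Dat) (φ₀ : ℂ) : Prop := ∃ a₀ b₀ : ℝ, 0 < a₀ ∧ b₀ < 1 / 2 ∧
  ∀ a b : ℝ, 0 < a → a ≤ a₀ → b₀ ≤ b → b < 1 / 2 →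
  a < b ∧ ∃ a' b' h : ℝ, 0 < a' ∧ a' < a ∧ b < b' ∧ b' < 1 / 2 ∧ 0 < h ∧
  ∀ᶠ p in 𝓝 ((0 : ℂ), φ₀), p ∈ PP b' h ∧ (TH p.1 p.2 b).re < (sg p.1 p.2).re ∧
    ∀ ψ φ : ℕ → ℂ, Tendsto ψ atTop (𝓝 p.1) → Tendsto φ atTop (𝓝 p.2) →
      (∀ N, (ψ N, φ N) ∈ PP b' h) →
      Tendsto (fun N : ℕ => Real.log ‖∑ d ∈ Ico (⌈a * N⌉₊) (⌊b * N⌋₊),
        Complex.exp (N * qq' T (ψ N) (φ N) N ((d : ℂ) / N))‖ / N) atTop (𝓝 (sg p.1 p.2).re)

theorem isOpen_Rc (ρ τ : ℝ) : IsOpen (Rc ρ τ) :=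
  (isOpen_lt Complex.continuous_re.abs continuous_const).inter
    (isOpen_lt Complex.continuous_im.abs continuous_const)

theorem zero_mem_Rc {ρ τ : ℝ} (h1 : 0 < ρ) (h2 : 0 < τ) : (0 : ℂ) ∈ Rc ρ τ := by
  refine ⟨?_, ?_⟩
  · show |(0 : ℂ).re| < ρ
    simpa using h1
  · show |(0 : ℂ).im| < τ
    simpa using h2

theorem cont_sg (hG : S_SGP) {φ₀ : ℂ} (hφ : φ₀ ∈ GG) :
    ContinuousAt (fun p : ℂ × ℂ => sg p.1 p.2) (0, φ₀) ∧
    ContinuousAt (fun p : ℂ × ℂ => dst p.1 p.2) (0, φ₀) := by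
  obtain ⟨r, c, C, S⟩ := hG φ₀ hφ
  have h1 : Rc r r ×ˢ ball φ₀ r ∈ 𝓝 ((0 : ℂ), φ₀) :=
    ((isOpen_Rc r r).prod isOpen_ball).mem_nhds
      ⟨zero_mem_Rc S.hr.1 S.hr.1, mem_ball_self S.hr.1⟩
  exact ⟨S.san.continuousOn.continuousAt h1, S.dan.continuousOn.continuousAt h1⟩

/-- persistence of the strict inequalities -/
theorem side_ev (T : Dat) (hG : S_SGP) {φ₀ : ℂ} (hφ : φ₀ ∈ GG) {a' b' h : ℝ} (ha' : 0 < a')
    (hb' : b' < 1 / 2) (hh : 0 < h) (hp₀ : ((0 : ℂ), φ₀) ∈ PP b' h)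
    {K : Set ℝ} (hK : IsCompact K) {f : (ℂ × ℂ) × ℝ → ℂ} {c : (ℂ × ℂ) × ℝ → ℝ}
    (hf : ∀ t ∈ K, ContinuousAt f ((0, φ₀), t)) (hc : ∀ t ∈ K, ContinuousAt c ((0, φ₀), t))
    (hfm : ∀ t ∈ K, f ((0, φ₀), t) ∈ CR a' b' h)
    (hlt : ∀ t ∈ K, (TH 0 φ₀ (f ((0, φ₀), t))).re + c ((0, φ₀), t) < (sg 0 φ₀).re) :
    ∀ᶠ p in 𝓝 ((0 : ℂ), φ₀), ∀ t ∈ K, (TH p.1 p.2 (f (p, t))).re + c (p, t) <
      (sg p.1 p.2).re := by
  refine hK.eventually_forall_of_forall_eventually fun t ht => ?_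
  have c1 := TH_cont T ha' hb' hh hp₀ (hfm t ht)
  have c2 : ContinuousAt (fun x : (ℂ × ℂ) × ℝ => TH x.1.1 x.1.2 (f x)) ((0, φ₀), t) :=
    ContinuousAt.comp' (g := fun x : (ℂ × ℂ) × ℂ => TH x.1.1 x.1.2 x.2)
      (f := fun x : (ℂ × ℂ) × ℝ => (x.1, f x)) c1 (continuousAt_fst.prodMk (hf t ht))
  have c3 : ContinuousAt (fun x : (ℂ × ℂ) × ℝ => sg x.1.1 x.1.2) ((0, φ₀), t) :=
    ContinuousAt.comp' (g := fun p : ℂ × ℂ => sg p.1 p.2)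
      (f := fun x : (ℂ × ℂ) × ℝ => x.1) (cont_sg hG hφ).1 continuousAt_fst
  have c4 : ContinuousAt (fun x : (ℂ × ℂ) × ℝ => (TH x.1.1 x.1.2 (f x)).re + c x)
      ((0, φ₀), t) := (Complex.continuous_re.continuousAt.comp c2).add (hc t ht)
  have c5 : ContinuousAt (fun x : (ℂ × ℂ) × ℝ => (sg x.1.1 x.1.2).re)
      ((0, φ₀), t) := Complex.continuous_re.continuousAt.comp c3
  exact c4.eventually_lt c5 (hlt t ht)

theorem mem_PP {φ₀ : ℂ} (hφ : φ₀ ∈ GG) {b' h : ℝ} (hb' : b' < 1 / 2)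
    (hh2 : 2 * π * h < φ₀.im) : ((0 : ℂ), φ₀) ∈ PP b' h := by
  have hπ := Real.pi_pos
  have hπ3 := Real.pi_gt_three
  refine ⟨?_, hh2, ?_⟩
  · show 2 * π * b' + |(0 : ℂ).re| < π
    rw [Complex.zero_re, abs_zero, add_zero]
    nlinarith
  · show |φ₀.re| < π
    have := hφ.1
    linarith

/-- the conditions at the critical point -/
theorem common (T : Dat) (hG : S_SGP) (hP : S_PERT) {φ₀ : ℂ} (hφ : φ₀ ∈ GG) {a a' b b' h : ℝ}
    (ha' : 0 < a') (haa : a' < a) (hbb : b < b') (hb' : b' < 1 / 2) (hh : 0 < h)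
    (hh2 : 2 * π * h < φ₀.im) (hz1 : a < (dst 0 φ₀).re) (hz2 : (dst 0 φ₀).re < b)
    (hz3 : |(dst 0 φ₀).im| < h)
    (hline : ∀ x : ℝ, a ≤ x → x ≤ b → x ≠ (dst 0 φ₀).re →
      (TH 0 φ₀ (x + (dst 0 φ₀).im * Complex.I)).re < (TH 0 φ₀ (dst 0 φ₀)).re) :
    ∀ᶠ p in 𝓝 ((0 : ℂ), φ₀), p ∈ PP b' h ∧ a < (dst p.1 p.2).re ∧ (dst p.1 p.2).re < b ∧
      deriv (TH p.1 p.2) (dst p.1 p.2) = 0 ∧
      (deriv (deriv (TH p.1 p.2)) (dst p.1 p.2)).re < 0 ∧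
      ∀ x : ℝ, a ≤ x → x ≤ b → x ≠ (dst p.1 p.2).re →
        (TH p.1 p.2 (x + (dst p.1 p.2).im * Complex.I)).re < (TH p.1 p.2 (dst p.1 p.2)).re := by
  have hp₀ := mem_PP hφ hb' hh2
  obtain ⟨r, c, C, S⟩ := hG φ₀ hφ
  have hr := S.hr.1
  have hnb : Rc r r ×ˢ ball φ₀ r ∈ 𝓝 ((0 : ℂ), φ₀) :=
    ((isOpen_Rc r r).prod isOpen_ball).mem_nhds ⟨zero_mem_Rc hr hr, mem_ball_self hr⟩
  have hd := (cont_sg hG hφ).2
  have hev1 : ∀ᶠ p in 𝓝 ((0 : ℂ), φ₀), p ∈ PP b' h := (isOpen_PP b' h).mem_nhds hp₀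
  have q1 : ∀ᶠ p in 𝓝 ((0 : ℂ), φ₀), DifferentiableOn ℂ (TH p.1 p.2) (OR a' b' h) := by
    filter_upwards [hev1] with p hp
    exact TH_diff T ha' hb' hh hp
  have q2 : DifferentiableOn ℂ (TH 0 φ₀) (OR a' b' h) :=
    TH_diff T (p := ((0 : ℂ), φ₀)) ha' hb' hh hp₀
  have q3 : TendstoUniformlyOn (fun q : ℂ × ℂ => TH q.1 q.2) (TH 0 φ₀) (𝓝 ((0 : ℂ), φ₀))
    (OR a' b' h) := TH_unif T (p := ((0 : ℂ), φ₀)) ha' hb' hh hp₀
  have q4 : Tendsto (fun p : ℂ × ℂ => dst p.1 p.2) (𝓝 ((0 : ℂ), φ₀)) (𝓝 (dst 0 φ₀)) := hd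
  have q5 : ∀ᶠ p in 𝓝 ((0 : ℂ), φ₀), deriv (TH p.1 p.2) (dst p.1 p.2) = 0 := by
    filter_upwards [hnb] with p hp
    exact (S.dder p.1 hp.1 p.2 hp.2).deriv
  have q6 : ∀ x : ℝ, a ≤ x → x ≤ b → (x + (dst 0 φ₀).im * Complex.I : ℂ) ∈ OR a' b' h := by
    intro x hx1 hx2
    refine ⟨?_, ?_, ?_⟩
    · simp; linarith
    · simp; linarith
    · simpa using hz3
  have q7 : (deriv (deriv (TH 0 φ₀)) (dst 0 φ₀)).re < 0 :=
    S.dneg 0 (zero_mem_Rc hr hr) φ₀ (mem_ball_self hr)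
  have hpert := hP (ℂ × ℂ) (𝓝 ((0 : ℂ), φ₀)) (fun p => TH p.1 p.2) (TH 0 φ₀) (OR a' b' h)
    (fun p => dst p.1 p.2) (dst 0 φ₀) a b (isOpen_OR a' b' h) q1 q2 q3 q4 q5 q6 hz1 hz2 q7 hline
  have hre : ContinuousAt (fun p : ℂ × ℂ => (dst p.1 p.2).re) (0, φ₀) :=
    Complex.continuous_re.continuousAt.comp hd
  filter_upwards [hev1, hnb, hpert, hre.eventually_const_lt hz1, hre.eventually_lt_const hz2]
    with p h1 h2 h3 h4 h5
  exact ⟨h1, h4, h5, (S.dder p.1 h2.1 p.2 h2.2).deriv, S.dneg p.1 h2.1 p.2 h2.2, h3.2⟩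

theorem win_pos (T : Dat) (hW : S_LAPW) (hFl : S_FLAT) (hS : S_SIDE) (hG : S_SGP)
    (hP : S_PERT) {φ₀ : ℂ} (hφ : φ₀ ∈ GG) (hre : 0 < φ₀.re) : Win T φ₀ := by
  have hπ := Real.pi_pos
  obtain ⟨f1, f2, f3, f4, f5⟩ := hFl φ₀ hφ hre
  obtain ⟨a₀, b₀, s1, s2, s3, s4, s5⟩ := hS φ₀ hφ hre
  obtain ⟨cs, cd⟩ := cont_sg hG hφ
  refine ⟨a₀, b₀, s1, s4, fun a b ha haa₀ hbb₀ hb => ?_⟩
  obtain ⟨t1, t2, t3⟩ := s5 a b ha haa₀ hbb₀ hb
  set z₀ : ℂ := dst 0 φ₀ with hz₀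
  have hza : a < z₀.re := by linarith
  have hzb : z₀.re < b := by linarith
  obtain ⟨h, hh1, hh2⟩ : ∃ h : ℝ, |z₀.im| < h ∧ 2 * π * h < φ₀.im := by
    refine ⟨(|z₀.im| + φ₀.im / (2 * π)) / 2, ?_, ?_⟩
    · have : |z₀.im| < φ₀.im / (2 * π) := by
        rw [lt_div_iff₀ (by positivity)]
        linarith
      linarith
    · have : 2 * π * ((|z₀.im| + φ₀.im / (2 * π)) / 2) =
          (2 * π * |z₀.im| + φ₀.im) / 2 := by
        field_simp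
      rw [this]
      linarith
  have hh : 0 < h := (abs_nonneg _).trans_lt hh1
  have hb'1 : b < (b + 1 / 2) / 2 := by linarith
  have hb'2 : (b + 1 / 2) / 2 < 1 / 2 := by linarith
  have hb0 : 0 < b := by linarith
  refine ⟨by linarith, a / 2, (b + 1 / 2) / 2, h, by linarith, by linarith, hb'1, hb'2, hh, ?_⟩
  have hp₀ := mem_PP hφ hb'2 hh2
  have hcom := common T hG hP hφ (a := a) (a' := a / 2) (b := b) (b' := (b + 1 / 2) / 2)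
    (by linarith) (by linarith) hb'1 hb'2 hh hh2 hza hzb hh1 (by
      intro x hx1 hx2 hx3
      exact f5 x (by linarith) (by linarith) hx3)
  have cim : ContinuousAt (fun p : ℂ × ℂ => (dst p.1 p.2).im) (0, φ₀) :=
    Complex.continuous_im.continuousAt.comp cd
  have hzim : ∀ᶠ p in 𝓝 ((0 : ℂ), φ₀), (dst p.1 p.2).im < 0 := cim.eventually_lt_const f1
  have hzim2 : ∀ᶠ p in 𝓝 ((0 : ℂ), φ₀), |(dst p.1 p.2).im| < h :=
    cim.abs.eventually_lt_const hh1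
  have cim' : ∀ t : ℝ, ContinuousAt (fun x : (ℂ × ℂ) × ℝ => (dst x.1.1 x.1.2).im)
      ((0, φ₀), t) := fun t =>
    ContinuousAt.comp' (g := fun p : ℂ × ℂ => (dst p.1 p.2).im)
      (f := fun x : (ℂ × ℂ) × ℝ => x.1) cim continuousAt_fst
  have cim'' : ∀ t : ℝ, ContinuousAt (fun x : (ℂ × ℂ) × ℝ =>
      ((dst x.1.1 x.1.2).im : ℂ)) ((0, φ₀), t) := fun t =>
    Complex.continuous_ofReal.continuousAt.comp (cim' t)
  have cx2 : ∀ t : ℝ, ContinuousAt (fun x : (ℂ × ℂ) × ℝ => (x.2 : ℂ)) ((0, φ₀), t) := fun t =>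
    Complex.continuous_ofReal.continuousAt.comp continuousAt_snd
  have habs : |z₀.im| = -z₀.im := abs_of_neg f1
  -- membership in the closed rectangle
  have hmem : ∀ x : ℝ, a ≤ x → x ≤ b → ∀ y : ℝ, |y| ≤ |z₀.im| →
      (x : ℂ) + y * Complex.I ∈ CR (a / 2) ((b + 1 / 2) / 2) h := by
    intro x hx1 hx2 y hy
    refine ⟨?_, ?_, ?_⟩
    · simp; linarith
    · simp; linarith
    · simp; linarith
  have hty : ∀ t ∈ Set.Icc (0:ℝ) 1, |t * z₀.im| ≤ |z₀.im| := by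
    intro t ht
    rw [abs_mul, abs_of_nonneg ht.1]
    exact mul_le_of_le_one_left (abs_nonneg _) ht.2
  have hty' : ∀ t ∈ Set.Icc (0:ℝ) 1, |-(t * z₀.im)| ≤ |z₀.im| := by
    intro t ht
    rw [abs_neg]
    exact hty t ht
  -- the lower halves of the vertical sides
  have low : ∀ x : ℝ, a ≤ x → x ≤ b → (∀ y : ℝ, z₀.im ≤ y → y ≤ 0 →
      (TH 0 φ₀ (x + y * Complex.I)).re < (sg 0 φ₀).re) →
      ∀ᶠ p in 𝓝 ((0 : ℂ), φ₀), ∀ t ∈ Set.Icc (0:ℝ) 1,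
        (TH p.1 p.2 (x + ((t : ℂ) * ((dst p.1 p.2).im : ℂ)) * Complex.I)).re + 0 <
          (sg p.1 p.2).re := by
    intro x hx1 hx2 hx3
    refine side_ev T hG hφ (a' := a / 2) (by linarith) hb'2 hh hp₀ isCompact_Icc
      (f := fun q => (x : ℂ) + ((q.2 : ℂ) * ((dst q.1.1 q.1.2).im : ℂ)) * Complex.I)
      (c := fun _ => 0) ?_ ?_ ?_ ?_
    · intro t ht
      exact continuousAt_const.add (((cx2 t).mul (cim'' t)).mul continuousAt_const)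
    · intro t ht
      exact continuousAt_const
    · intro t ht
      have := hmem x hx1 hx2 (t * z₀.im) (hty t ht)
      simpa using this
    · intro t ht
      have h1 := hx3 (t * z₀.im) (by nlinarith [ht.1, ht.2]) (by nlinarith [ht.1, ht.2])
      simpa using h1
  -- the upper halves
  have upp : ∀ x : ℝ, a ≤ x → x ≤ b → (∀ y : ℝ, 0 ≤ y → y ≤ -z₀.im →
      (TH 0 φ₀ (x + y * Complex.I)).re - 2 * π * y < (sg 0 φ₀).re) →
      ∀ᶠ p in 𝓝 ((0 : ℂ), φ₀), ∀ t ∈ Set.Icc (0:ℝ) 1,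
        (TH p.1 p.2 (x + (-((t : ℂ) * ((dst p.1 p.2).im : ℂ))) * Complex.I)).re +
          2 * π * (t * (dst p.1 p.2).im) < (sg p.1 p.2).re := by
    intro x hx1 hx2 hx3
    refine side_ev T hG hφ (a' := a / 2) (by linarith) hb'2 hh hp₀ isCompact_Icc
      (f := fun q => (x : ℂ) + (-((q.2 : ℂ) * ((dst q.1.1 q.1.2).im : ℂ))) * Complex.I)
      (c := fun q => 2 * π * (q.2 * (dst q.1.1 q.1.2).im)) ?_ ?_ ?_ ?_
    · intro t ht
      exact continuousAt_const.add ((((cx2 t).mul (cim'' t)).neg).mul continuousAt_const)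
    · intro t ht
      exact continuousAt_const.mul (continuousAt_snd.mul (cim' t))
    · intro t ht
      have := hmem x hx1 hx2 (-(t * z₀.im)) (hty' t ht)
      simpa using this
    · intro t ht
      have h1 := hx3 (-(t * z₀.im)) (by nlinarith [ht.1, ht.2]) (by nlinarith [ht.1, ht.2])
      have e1 : (((-(t * z₀.im) : ℝ)) : ℂ) = -((t : ℂ) * (z₀.im : ℂ)) := by push_cast; ring
      rw [e1] at h1
      simp only [← hz₀]
      linarith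
  have topp : ∀ᶠ p in 𝓝 ((0 : ℂ), φ₀), ∀ x ∈ Set.Icc a b,
        (TH p.1 p.2 (x - ((dst p.1 p.2).im : ℂ) * Complex.I)).re +
          2 * π * (dst p.1 p.2).im < (sg p.1 p.2).re := by
    refine side_ev T hG hφ (a' := a / 2) (by linarith) hb'2 hh hp₀ isCompact_Icc
      (f := fun q => (q.2 : ℂ) - ((dst q.1.1 q.1.2).im : ℂ) * Complex.I)
      (c := fun q => 2 * π * (dst q.1.1 q.1.2).im) ?_ ?_ ?_ ?_
    · intro t ht
      exact (cx2 t).sub ((cim'' t).mul continuousAt_const)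
    · intro t ht
      exact continuousAt_const.mul (cim' t)
    · intro t ht
      have := hmem t ht.1 ht.2 (-z₀.im) (by rw [abs_neg])
      simpa [sub_eq_add_neg] using this
    · intro t ht
      exact t3 t ht.1 ht.2
  have hab : a ≤ b := by linarith
  filter_upwards [hcom, hzim, hzim2, low a le_rfl hab fun y h1 h2 => (t1 y h1 h2).1,
    low b hab le_rfl fun y h1 h2 => (t1 y h1 h2).2,
    upp a le_rfl hab fun y h1 h2 => (t2 y h1 h2).1,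
    upp b hab le_rfl fun y h1 h2 => (t2 y h1 h2).2, topp]
    with p g1 g2 g2' g3 g4 g5 g6 g7
  obtain ⟨k1, k2, k3, k4, k5, k6⟩ := g1
  have hlow : ∀ y : ℝ, (dst p.1 p.2).im ≤ y → y ≤ 0 →
      (TH p.1 p.2 (a + y * Complex.I)).re < (sg p.1 p.2).re ∧
      (TH p.1 p.2 (b + y * Complex.I)).re < (sg p.1 p.2).re := by
    intro y hy1 hy2
    have e1 : y / (dst p.1 p.2).im ∈ Set.Icc (0:ℝ) 1 :=
      ⟨div_nonneg_of_nonpos hy2 g2.le, by rw [div_le_one_of_neg g2]; exact hy1⟩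
    have e2 : ((y / (dst p.1 p.2).im : ℝ) : ℂ) * ((dst p.1 p.2).im : ℂ) = y := by
      rw [← Complex.ofReal_mul, div_mul_cancel₀ _ g2.ne]
    have h3 := g3 _ e1
    have h4 := g4 _ e1
    rw [e2, add_zero] at h3 h4
    exact ⟨h3, h4⟩
  have hupp : ∀ y : ℝ, 0 ≤ y → y ≤ -(dst p.1 p.2).im →
      (TH p.1 p.2 (a + y * Complex.I)).re - 2 * π * y < (sg p.1 p.2).re ∧
      (TH p.1 p.2 (b + y * Complex.I)).re - 2 * π * y < (sg p.1 p.2).re := by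
    intro y hy1 hy2
    have e1 : (-y) / (dst p.1 p.2).im ∈ Set.Icc (0:ℝ) 1 :=
      ⟨div_nonneg_of_nonpos (by linarith) g2.le, by
        rw [div_le_one_of_neg g2]; linarith⟩
    have e3 : ((-y) / (dst p.1 p.2).im) * (dst p.1 p.2).im = -y :=
      div_mul_cancel₀ _ g2.ne
    have e2 : -((((-y) / (dst p.1 p.2).im : ℝ) : ℂ) * ((dst p.1 p.2).im : ℂ)) = y := by
      rw [← Complex.ofReal_mul, e3]
      simp
    have h3 := g5 _ e1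
    have h4 := g6 _ e1
    rw [e2, e3] at h3 h4
    exact ⟨by linarith, by linarith⟩
  refine ⟨k1, ?_, fun ψ φ hψ hφt hPP => ?_⟩
  · have := (hlow 0 g2.le le_rfl).2
    simpa using this
  have hmem' : ∀ x y : ℝ, a ≤ x → x ≤ b → |y| ≤ -(dst p.1 p.2).im →
      (x : ℂ) + y * Complex.I ∈ OR (a / 2) ((b + 1 / 2) / 2) h := by
    intro x y hx1 hx2 hy
    refine ⟨?_, ?_, ?_⟩
    · simp; linarith
    · simp; linarith
    · rw [abs_of_neg g2] at g2'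
      simp
      linarith
  exact hW (fun N => qq' T (ψ N) (φ N) N) (TH p.1 p.2) (OR (a / 2) ((b + 1 / 2) / 2) h) a b
    (dst p.1 p.2) (fun N => ⌈a * N⌉₊) (fun N => ⌊b * N⌋₊) (isOpen_OR _ _ _)
    (Filter.eventually_atTop.2 ⟨1, fun N hN =>
      (qq_diff T (by linarith) hb'2 hh (hPP N) hN).mono (OR_sub_CR _ _ _)⟩)
    (TH_diff T (by linarith) hb'2 hh k1)
    ((qq_unif T (by linarith) hb'2 hh k1 hψ hφt).mono (OR_sub_CR _ _ _))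
    hmem' g2 (tend_ceil ha) (tend_floor hb0) k2 k3 k4 k5 k6 hlow hupp
    (fun x hx1 hx2 => g7 x ⟨hx1, hx2⟩)

end Pool.Agent.N839.VS
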